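import Mathlib

set_option autoImplicit false

namespace Pool.Agent.H70

open Finset

theorem succ_pow_le (k e : ℕ) : (e + 1) ^ k ≤ (k.factorial * 2 ^ k) * 2 ^ e := by
  have h1 : (e + 1) ^ k ≤ (e + 1).ascFactorial k := Nat.pow_succ_le_ascFactorial (e + 1) k
  rw [Nat.ascFactorial_eq_factorial_mul_choose] at h1
  have h2 : (e + k).choose k ≤ 2 ^ (e + k) := Nat.choose_le_two_pow _ _
  calc (e + 1) ^ k ≤ k.factorial * (e + k).choose k := h1
    _ ≤ k.factorial * 2 ^ (e + k) := Nat.mul_le_mul_left _ h2
    _ = (k.factorial * 2 ^ k) * 2 ^ e := by rw [pow_add]; ring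

theorem card_divisors_pow_le_aux (k : ℕ) (m : ℕ) (hm : m ≠ 0) :
    (m.divisors.card) ^ k ≤
      (k.factorial * 2 ^ k) ^ (m.primeFactors.filter (fun p => p < 2 ^ k)).card * m := by
  induction m using Nat.recOnPosPrimePosCoprime with
  | zero => exact absurd rfl hm
  | one => simp
  | prime_pow p e hp he =>
    rw [Nat.divisors_prime_pow hp, Finset.card_map, Finset.card_range, Nat.primeFactors_prime_pow he.ne' hp]
    by_cases h : p < 2 ^ k
    · have h3 : (({p} : Finset ℕ).filter (fun p => p < 2 ^ k)) = {p} := by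
        rw [Finset.filter_singleton, if_pos h]
      rw [h3, Finset.card_singleton, pow_one]
      refine (succ_pow_le k e).trans (Nat.mul_le_mul_left _ (Nat.pow_le_pow_left hp.two_le e))
    · have h3 : (({p} : Finset ℕ).filter (fun p => p < 2 ^ k)) = ∅ := by
        rw [Finset.filter_singleton, if_neg h]
      rw [h3, Finset.card_empty, pow_zero, one_mul]
      calc (e + 1) ^ k ≤ (2 ^ e) ^ k := Nat.pow_le_pow_left (Nat.lt_two_pow_self) k
        _ = (2 ^ k) ^ e := by rw [← pow_mul, ← pow_mul, mul_comm]
        _ ≤ p ^ e := Nat.pow_le_pow_left (not_lt.1 h) e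
  | coprime a b ha hb hab iha ihb =>
    have ha0 : a ≠ 0 := by omega
    have hb0 : b ≠ 0 := by omega
    rw [hab.card_divisors_mul, mul_pow, hab.primeFactors_mul, Finset.filter_union,
      Finset.card_union_of_disjoint, pow_add]
    · calc a.divisors.card ^ k * b.divisors.card ^ k
          ≤ ((k.factorial * 2 ^ k) ^ (a.primeFactors.filter (fun p => p < 2 ^ k)).card * a) *
            ((k.factorial * 2 ^ k) ^ (b.primeFactors.filter (fun p => p < 2 ^ k)).card * b) :=
            Nat.mul_le_mul (iha ha0) (ihb hb0)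
        _ = _ := by ring
    · exact Finset.disjoint_filter_filter hab.disjoint_primeFactors

theorem card_divisors_pow_le (k : ℕ) :
    ∃ C : ℕ, 0 < C ∧ ∀ m : ℕ, m ≠ 0 → (m.divisors.card) ^ k ≤ C * m := by
  have hB : 0 < k.factorial * 2 ^ k := by positivity
  refine ⟨(k.factorial * 2 ^ k) ^ (2 ^ k), by positivity, fun m hm => ?_⟩
  refine (card_divisors_pow_le_aux k m hm).trans (Nat.mul_le_mul_right _ ?_)
  apply Nat.pow_le_pow_right hB
  calc (m.primeFactors.filter (fun p => p < 2 ^ k)).card ≤ (Finset.range (2 ^ k)).card := by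
        apply Finset.card_le_card
        intro p hp
        simp only [Finset.mem_filter] at hp
        exact Finset.mem_range.2 hp.2
    _ = 2 ^ k := Finset.card_range _

end Pool.Agent.H70
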