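import Mathlib
import Pool.Agent.H70.DivBound

set_option autoImplicit false

namespace Pool.Agent.H70

open Finset

/-- Finitely many natural numbers below `L` which are pairwise congruent modulo `M`. -/
theorem card_le_of_congr (L M : ℕ) (S : Finset ℕ) (hS : ∀ n ∈ S, n < L)
    (hc : ∀ n ∈ S, ∀ n' ∈ S, (M : ℤ) ∣ (n : ℤ) - n') : S.card ≤ L / M + 1 := by
  have : S.card ≤ (range (L / M + 1)).card := by
    apply Finset.card_le_card_of_injOn (fun n => n / M)
    · intro n hn
      have := hS n hn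
      simp only [coe_range, Set.mem_Iio]
      exact Nat.lt_succ_of_le (Nat.div_le_div_right this.le)
    · intro n hn n' hn' h
      simp only at h
      have h1 := hc n hn n' hn'
      have h2 : n % M = n' % M := by
        have h3 : (n : ℤ) % M = (n' : ℤ) % M := ((Int.modEq_iff_dvd).2 h1).symm
        exact_mod_cast h3
      rw [← Nat.div_add_mod n M, ← Nat.div_add_mod n' M, h, h2]
  simpa using this

/-- If `q ^ 6` divides `u * v` for a prime `q`, then `q ^ 3` divides `u` or `v`. -/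
theorem pow_three_dvd (q : ℤ) (hqp : Prime q) (u v : ℤ) (h : q ^ 6 ∣ u * v) :
    q ^ 3 ∣ u ∨ q ^ 3 ∣ v := by
  by_cases h1 : q ^ 3 ∣ u
  · exact Or.inl h1
  right
  by_cases hu1 : q ∣ u
  · by_cases hu2 : q ^ 2 ∣ u
    · -- q^2 | u, so q^4 | v
      by_contra hv
      rcases le_or_gt 0 0 with _ | h
      · -- v is divisible by q^l for l ≤ 2
        have hl : ∀ l : ℕ, l ≤ 3 → q ^ l ∣ v := by
          intro l
          induction l with
          | zero => intro _; simp
          | succ l ih =>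
            intro hl
            rcases succ_dvd_or_succ_dvd_of_succ_sum_dvd_mul hqp hu2 (ih (by omega))
              (dvd_trans (pow_dvd_pow q (by omega)) h) with h' | h'
            · exact absurd h' h1
            · exact h'
        exact hv (hl 3 le_rfl)
      · exact absurd h (lt_irrefl _)
    · have hl : ∀ l : ℕ, l ≤ 3 → q ^ l ∣ v := by
        intro l
        induction l with
        | zero => intro _; simp
        | succ l ih =>
          intro hl
          rcases succ_dvd_or_succ_dvd_of_succ_sum_dvd_mul (k := 1) hqp (by simpa using hu1)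
            (ih (by omega)) (dvd_trans (pow_dvd_pow q (by omega)) h) with h' | h'
          · exact absurd h' hu2
          · exact h'
      exact hl 3 le_rfl
  · have hl : ∀ l : ℕ, l ≤ 3 → q ^ l ∣ v := by
      intro l
      induction l with
      | zero => intro _; simp
      | succ l ih =>
        intro hl
        rcases succ_dvd_or_succ_dvd_of_succ_sum_dvd_mul (k := 0) hqp (by simp)
          (ih (by omega)) (dvd_trans (pow_dvd_pow q (by omega)) h) with h' | h'
        · exact absurd (by simpa using h') hu1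
        · exact h'
    exact hl 3 le_rfl

/-- The number of `n < L` with `q ^ 6 ∣ (6 n + 3) ^ 2 - e`. -/
theorem card_square_class (L : ℕ) (e : ℤ) (q : ℕ) (hq : q.Prime) (h5 : 5 ≤ q) :
    ((range L).filter (fun n : ℕ => (q : ℤ) ^ 6 ∣ (6 * (n : ℤ) + 3) ^ 2 - e)).card ≤
      2 * (L / q ^ 3 + 1) := by
  set S := (range L).filter (fun n : ℕ => (q : ℤ) ^ 6 ∣ (6 * (n : ℤ) + 3) ^ 2 - e) with hSdef
  have hqp : Prime (q : ℤ) := Nat.prime_iff_prime_int.1 hq
  have hcop6 : IsCoprime ((q : ℤ) ^ 3) 6 := by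
    apply IsCoprime.pow_left
    rw [Int.isCoprime_iff_gcd_eq_one]
    have : Nat.Coprime q 6 := by
      rw [Nat.Prime.coprime_iff_not_dvd hq]
      intro h
      have h2 : q ∣ 2 * 3 := h
      rcases (Nat.Prime.dvd_mul hq).1 h2 with h | h
      · have := Nat.le_of_dvd (by norm_num) h; omega
      · have := Nat.le_of_dvd (by norm_num) h; omega
    exact_mod_cast this
  rcases S.eq_empty_or_nonempty with h0 | ⟨n₀, hn₀⟩
  · rw [h0]; simp
  have hn₀' := (mem_filter.1 hn₀).2
  have hcover : S ⊆ (S.filter (fun n : ℕ => (q : ℤ) ^ 3 ∣ (n : ℤ) - n₀)) ∪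
      (S.filter (fun n : ℕ => (q : ℤ) ^ 3 ∣ 6 * (n : ℤ) + 3 + (6 * n₀ + 3))) := by
    intro n hn
    have hn' := (mem_filter.1 hn).2
    have hd : (q : ℤ) ^ 6 ∣ (6 * (n : ℤ) + 3 - (6 * n₀ + 3)) * (6 * (n : ℤ) + 3 + (6 * n₀ + 3)) := by
      have := dvd_sub hn' hn₀'
      refine this.trans (dvd_of_eq ?_)
      ring
    rcases pow_three_dvd q hqp _ _ hd with h | h
    · refine mem_union_left _ (mem_filter.2 ⟨hn, ?_⟩)
      have h' : (q : ℤ) ^ 3 ∣ 6 * ((n : ℤ) - n₀) := by
        refine h.trans (dvd_of_eq ?_)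
        ring
      exact hcop6.dvd_of_dvd_mul_left h'
    · exact mem_union_right _ (mem_filter.2 ⟨hn, h⟩)
  refine (card_le_card hcover).trans ((card_union_le _ _).trans ?_)
  have e1 : (S.filter (fun n : ℕ => (q : ℤ) ^ 3 ∣ (n : ℤ) - n₀)).card ≤ L / q ^ 3 + 1 := by
    apply card_le_of_congr
    · intro n hn
      exact mem_range.1 (mem_filter.1 (mem_filter.1 hn).1).1
    · intro n hn n' hn'
      have h1 := (mem_filter.1 hn).2
      have h2 := (mem_filter.1 hn').2
      have := dvd_sub h1 h2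
      push_cast
      refine this.trans (dvd_of_eq ?_)
      ring
  have e2 : (S.filter (fun n : ℕ => (q : ℤ) ^ 3 ∣ 6 * (n : ℤ) + 3 + (6 * n₀ + 3))).card ≤
      L / q ^ 3 + 1 := by
    apply card_le_of_congr
    · intro n hn
      exact mem_range.1 (mem_filter.1 (mem_filter.1 hn).1).1
    · intro n hn n' hn'
      have h1 := (mem_filter.1 hn).2
      have h2 := (mem_filter.1 hn').2
      have := dvd_sub h1 h2
      push_cast
      have h' : (q : ℤ) ^ 3 ∣ 6 * ((n : ℤ) - n') := by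
        refine this.trans (dvd_of_eq ?_)
        ring
      exact hcop6.dvd_of_dvd_mul_left h'
  omega

/-- `∑ 1 / q³` over `5 ≤ q ≤ N` is at most `1 / 40`. -/
theorem sum_inv_cubes (N : ℕ) : ∑ q ∈ Icc 5 N, (1 : ℝ) / (q : ℝ) ^ 3 ≤ 1 / 40 := by
  have key : ∀ N : ℕ, 4 ≤ N → ∑ q ∈ Icc 5 N, (1 : ℝ) / (q : ℝ) ^ 3 ≤
      1 / 40 - 1 / (2 * (N : ℝ) * (N + 1)) := by
    intro N hN
    induction N, hN using Nat.le_induction with
    | base => norm_num
    | succ N hN ih =>
      rw [Finset.sum_Icc_succ_top (by omega)]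
      have hN' : (4 : ℝ) ≤ N := by exact_mod_cast hN
      have : (1 : ℝ) / ((N + 1 : ℕ) : ℝ) ^ 3 ≤ 1 / (2 * (N : ℝ) * (N + 1)) -
          1 / (2 * ((N + 1 : ℕ) : ℝ) * ((N + 1 : ℕ) + 1)) := by
        push_cast
        rw [div_sub_div _ _ (by positivity) (by positivity), div_le_div_iff₀ (by positivity)
          (by positivity)]
        have h0 : (0 : ℝ) ≤ N := by linarith
        nlinarith [mul_nonneg h0 h0, mul_nonneg (mul_nonneg h0 h0) h0,
          mul_nonneg (mul_nonneg (mul_nonneg h0 h0) h0) h0]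
      linarith
  rcases le_or_gt 4 N with h | h
  · refine (key N h).trans ?_
    have : (0 : ℝ) ≤ 1 / (2 * (N : ℝ) * (N + 1)) := by positivity
    linarith
  · rw [Finset.Icc_eq_empty (by omega)]
    norm_num

open Classical in
/-- The number of `n < L` such that `q ^ 6 ∣ (6 n + 3) ^ 2 - e` for some prime `5 ≤ q ≤ N`. -/
theorem card_nonreduced (L N : ℕ) (e : ℤ) :
    (((range L).filter (fun n : ℕ => ∃ q : ℕ, q.Prime ∧ 5 ≤ q ∧ q ≤ N ∧
      (q : ℤ) ^ 6 ∣ (6 * (n : ℤ) + 3) ^ 2 - e)).card : ℝ) ≤ L / 20 + 2 * N := by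
  have h1 : (range L).filter (fun n : ℕ => ∃ q : ℕ, q.Prime ∧ 5 ≤ q ∧ q ≤ N ∧
      (q : ℤ) ^ 6 ∣ (6 * (n : ℤ) + 3) ^ 2 - e) ⊆
      ((Icc 5 N).filter Nat.Prime).biUnion (fun q =>
        (range L).filter (fun n : ℕ => (q : ℤ) ^ 6 ∣ (6 * (n : ℤ) + 3) ^ 2 - e)) := by
    intro n hn
    obtain ⟨hn1, q, hq, h5, hN, hd⟩ := mem_filter.1 hn
    rw [mem_biUnion]
    exact ⟨q, mem_filter.2 ⟨mem_Icc.2 ⟨h5, hN⟩, hq⟩, mem_filter.2 ⟨hn1, hd⟩⟩
  have h2 := (card_le_card h1).trans card_biUnion_le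
  have h3 : (∑ q ∈ (Icc 5 N).filter Nat.Prime,
      ((range L).filter (fun n : ℕ => (q : ℤ) ^ 6 ∣ (6 * (n : ℤ) + 3) ^ 2 - e)).card : ℕ) ≤
      ∑ q ∈ Icc 5 N, 2 * (L / q ^ 3 + 1) := by
    refine (Finset.sum_le_sum fun q hq => ?_).trans
      (Finset.sum_le_sum_of_subset (Finset.filter_subset _ _))
    obtain ⟨hq1, hq2⟩ := mem_filter.1 hq
    exact card_square_class L e q hq2 (mem_Icc.1 hq1).1
  have h4 : ((∑ q ∈ Icc 5 N, 2 * (L / q ^ 3 + 1) : ℕ) : ℝ) ≤ L / 20 + 2 * N := by
    push_cast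
    calc ∑ q ∈ Icc 5 N, 2 * (((L / q ^ 3 : ℕ) : ℝ) + 1)
        ≤ ∑ q ∈ Icc 5 N, (2 * L * (1 / (q : ℝ) ^ 3) + 2) := by
          refine Finset.sum_le_sum fun q _ => ?_
          have : ((L / q ^ 3 : ℕ) : ℝ) ≤ L / ((q ^ 3 : ℕ) : ℝ) := Nat.cast_div_le
          push_cast at this
          have h5 : (L : ℝ) / (q : ℝ) ^ 3 = L * (1 / (q : ℝ) ^ 3) := by ring
          rw [h5] at this
          linarith
      _ = 2 * L * (∑ q ∈ Icc 5 N, (1 / (q : ℝ) ^ 3)) + 2 * (Icc 5 N).card := by
          rw [Finset.sum_add_distrib, ← Finset.mul_sum, Finset.sum_const, nsmul_eq_mul]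
          ring
      _ ≤ 2 * L * (1 / 40) + 2 * N := by
          have h6 := sum_inv_cubes N
          have h7 : ((Icc 5 N).card : ℝ) ≤ N := by
            rw [Nat.card_Icc]
            exact_mod_cast (by omega : N + 1 - 5 ≤ N)
          have h8 : (0 : ℝ) ≤ 2 * L := by positivity
          nlinarith [mul_le_mul_of_nonneg_left h6 h8]
      _ = L / 20 + 2 * N := by ring
  calc (((range L).filter (fun n : ℕ => ∃ q : ℕ, q.Prime ∧ 5 ≤ q ∧ q ≤ N ∧
      (q : ℤ) ^ 6 ∣ (6 * (n : ℤ) + 3) ^ 2 - e)).card : ℝ)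
      ≤ ((∑ q ∈ Icc 5 N, 2 * (L / q ^ 3 + 1) : ℕ) : ℝ) := by exact_mod_cast h2.trans h3
    _ ≤ _ := h4

/-- The number of `w` in a set of integers with `w ^ 2 + N` a square. -/
theorem card_sq_add (N : ℤ) (hN : N ≠ 0) (S : Finset ℕ) (f : ℕ → ℤ) (hf : Function.Injective f)
    (hS : ∀ n ∈ S, ∃ y : ℤ, y ^ 2 = f n ^ 2 + N) : S.card ≤ 2 * N.natAbs.divisors.card := by
  classical
  -- `f n = (N / d - d) / 2` for a divisor `d`, positive or negative
  set D : Finset ℤ := (N.natAbs.divisors.image (fun d : ℕ => (N / d - d) / 2)) ∪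
    (N.natAbs.divisors.image (fun d : ℕ => (N / (-d) - (-d)) / 2)) with hD
  have hDcard : D.card ≤ 2 * N.natAbs.divisors.card := by
    refine (card_union_le _ _).trans ?_
    have h1 := card_image_le (s := N.natAbs.divisors) (f := fun d : ℕ => (N / d - (d : ℤ)) / 2)
    have h2 := card_image_le (s := N.natAbs.divisors) (f := fun d : ℕ => (N / (-d) - (-(d : ℤ))) / 2)
    omega
  refine le_trans ?_ hDcard
  apply Finset.card_le_card_of_injOn f
  · intro n hn
    obtain ⟨y, hy⟩ := hS n hn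
    set w := f n
    have hfac : (y - w) * (y + w) = N := by linear_combination hy
    have hd0 : y - w ≠ 0 := by
      intro h0
      rw [h0, zero_mul] at hfac
      exact hN hfac.symm
    have hdiv : N / (y - w) = y + w := by
      rw [← hfac, Int.mul_ediv_cancel_left _ hd0]
    have hmem : (y - w).natAbs ∈ N.natAbs.divisors := by
      rw [Nat.mem_divisors]
      refine ⟨?_, by simpa using hN⟩
      rw [← hfac, Int.natAbs_mul]
      exact dvd_mul_right _ _
    have hw : (N / (y - w) - (y - w)) / 2 = w := by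
      rw [hdiv]
      have : y + w - (y - w) = 2 * w := by ring
      rw [this]
      exact Int.mul_ediv_cancel_left _ two_ne_zero
    simp only [hD, coe_union, coe_image, Set.mem_union, Set.mem_image, mem_coe]
    rcases le_or_gt 0 (y - w) with h | h
    · left
      refine ⟨(y - w).natAbs, hmem, ?_⟩
      rw [Int.natAbs_of_nonneg h]
      exact hw
    · right
      refine ⟨(y - w).natAbs, hmem, ?_⟩
      have : -((y - w).natAbs : ℤ) = y - w := by
        rw [Int.ofNat_natAbs_of_nonpos h.le]; ring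
      rw [this]
      exact hw
  · exact hf.injOn

end Pool.Agent.H70
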