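import Mathlib

set_option autoImplicit false

namespace Pool.Agent.H70

open Finset

/-! ### Independence modulo doubles -/

/-- In an abelian group without elements of order two, a finite family is linearly independent if
no nonempty subsum is a double. -/
theorem linearIndependent_of_not_double {G ι : Type} [AddCommGroup G] [Fintype ι] [DecidableEq ι]
    (h2 : ∀ Q : G, Q + Q = 0 → Q = 0) (P : ι → G)
    (hP : ∀ S : Finset ι, S.Nonempty → ¬ ∃ Q : G, Q + Q = ∑ i ∈ S, P i) :
    LinearIndependent ℤ P := by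
  rw [Fintype.linearIndependent_iff]
  -- strong induction on the sum of absolute values
  have key : ∀ N : ℕ, ∀ g : ι → ℤ, (∑ i, (g i).natAbs) ≤ N → ∑ i, g i • P i = 0 → ∀ i, g i = 0 := by
    intro N
    induction N with
    | zero =>
      intro g hg _ i
      have := Finset.sum_eq_zero_iff.1 (Nat.le_zero.1 hg) i (mem_univ i)
      exact Int.natAbs_eq_zero.1 this
    | succ N ih =>
      intro g hg h0 i
      -- the set of odd coefficients is empty
      set S : Finset ι := univ.filter (fun i => g i % 2 = 1) with hS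
      have hdecomp : ∀ i, g i = 2 * (g i / 2) + if i ∈ S then 1 else 0 := by
        intro i
        by_cases h : g i % 2 = 1
        · have : i ∈ S := by simp [hS, h]
          rw [if_pos this]; omega
        · have : i ∉ S := by simp [hS, h]
          rw [if_neg this]; omega
      have hsum : (∑ i, (g i / 2) • P i) + (∑ i, (g i / 2) • P i) + ∑ i ∈ S, P i = 0 := by
        rw [← h0, ← Finset.sum_add_distrib]
        have : ∑ i ∈ S, P i = ∑ i, (if i ∈ S then (1 : ℤ) else 0) • P i := by
          simp only [ite_smul, one_smul, zero_smul, Finset.sum_ite_mem, Finset.univ_inter]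
        rw [this, ← Finset.sum_add_distrib]
        refine Finset.sum_congr rfl fun i _ => ?_
        conv_rhs => rw [hdecomp i]
        rw [add_smul, two_mul, add_smul]
      have hSe : ¬ S.Nonempty := by
        intro hne
        apply hP S hne
        refine ⟨-∑ i, (g i / 2) • P i, ?_⟩
        have := hsum
        rw [add_eq_zero_iff_eq_neg] at this
        rw [← neg_add, ← neg_eq_iff_eq_neg.2 this]
      rw [Finset.not_nonempty_iff_eq_empty] at hSe
      rw [hSe] at hsum
      simp only [Finset.sum_empty, add_zero] at hsum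
      have h0' := h2 _ hsum
      have heven : ∀ i, g i = 2 * (g i / 2) := by
        intro i
        have := hdecomp i
        rw [hSe] at this
        simpa using this
      by_cases hall : ∀ i, g i = 0
      · exact hall i
      · push Not at hall
        obtain ⟨j, hj⟩ := hall
        have hlt : (∑ i, (g i / 2).natAbs) < ∑ i, (g i).natAbs := by
          apply Finset.sum_lt_sum
          · intro i _; have := heven i; omega
          · exact ⟨j, mem_univ j, by have := heven j; omega⟩
        have := ih (fun i => g i / 2) (by omega) h0' i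
        have h3 := heven i
        omega
  intro g hg i
  exact key _ g le_rfl hg i

/-! ### Doubling on `y² = x³ + A x + B` -/

/-- The curve `y² = x³ + A x + B`. -/
def curve (A B : ℤ) : WeierstrassCurve ℚ := ⟨0, 0, 0, A, B⟩

theorem equation_iff (A B : ℤ) (x y : ℚ) :
    (curve A B).toAffine.Equation x y ↔ y ^ 2 = x ^ 3 + A * x + B := by
  rw [WeierstrassCurve.Affine.equation_iff]
  simp [curve]

theorem disc_eq (A B : ℤ) : (curve A B).Δ = ((-16 * (4 * A ^ 3 + 27 * B ^ 2) : ℤ) : ℚ) := by
  simp [curve, WeierstrassCurve.Δ, WeierstrassCurve.b₂, WeierstrassCurve.b₄, WeierstrassCurve.b₆,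
    WeierstrassCurve.b₈]
  ring

theorem nonsingular_iff (A B : ℤ) (hD : 4 * A ^ 3 + 27 * B ^ 2 ≠ 0) (x y : ℚ) :
    (curve A B).toAffine.Nonsingular x y ↔ y ^ 2 = x ^ 3 + A * x + B := by
  rw [← equation_iff]
  refine (WeierstrassCurve.Affine.equation_iff_nonsingular_of_Δ_ne_zero ?_).symm
  rw [disc_eq]
  exact_mod_cast mul_ne_zero (by norm_num) hD

theorem negY_eq (A B : ℤ) (x y : ℚ) : (curve A B).toAffine.negY x y = -y := by
  simp [WeierstrassCurve.Affine.negY, curve]

/-- The coordinates of a double. -/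
theorem double_coord (A B : ℤ) (Q : (curve A B).toAffine.Point) (X Y : ℚ)
    (h : (curve A B).toAffine.Nonsingular X Y)
    (hQ : Q + Q = .some X Y h) :
    ∃ x y : ℚ, y ≠ 0 ∧ y ^ 2 = x ^ 3 + A * x + B ∧
      4 * y ^ 2 * X = (x ^ 2 - A) ^ 2 - 8 * B * x := by
  rcases Q with _ | ⟨x, y, hxy⟩
  · rw [← WeierstrassCurve.Affine.Point.zero_def, add_zero] at hQ
    exact absurd hQ.symm (WeierstrassCurve.Affine.Point.some_ne_zero h)
  · have he : y ^ 2 = x ^ 3 + A * x + B := (equation_iff A B x y).1 hxy.1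
    by_cases hy : y = (curve A B).toAffine.negY x y
    · rw [WeierstrassCurve.Affine.Point.add_self_of_Y_eq hy] at hQ
      exact absurd hQ.symm (WeierstrassCurve.Affine.Point.some_ne_zero h)
    · rw [WeierstrassCurve.Affine.Point.add_self_of_Y_ne hy] at hQ
      have hX := (WeierstrassCurve.Affine.Point.some.inj hQ).1
      rw [WeierstrassCurve.Affine.slope_of_Y_ne rfl hy] at hX
      rw [negY_eq] at hy
      have hy0 : y ≠ 0 := fun h0 => hy (by rw [h0]; simp)
      refine ⟨x, y, hy0, he, ?_⟩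
      rw [← hX]
      simp only [WeierstrassCurve.Affine.addX, negY_eq]
      simp only [curve]
      have h2y : y - -y = 2 * y := by ring
      rw [h2y]
      have h3 : 4 * y ^ 2 * ((((3 * x ^ 2 + (A : ℚ)) / (2 * y)) ^ 2) - 2 * x) =
          (3 * x ^ 2 + A) ^ 2 - 8 * x * y ^ 2 := by
        field_simp
        ring
      linear_combination h3 - 8 * x * he


/-- The doubling relation in integers. -/
theorem double_int (A B n : ℤ) (Q : (curve A B).toAffine.Point) (Y : ℚ)
    (h : (curve A B).toAffine.Nonsingular (n : ℚ) Y) (hQ : Q + Q = .some (n : ℚ) Y h) :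
    ∃ r s : ℤ, IsCoprime r s ∧
      4 * (r ^ 3 * s + A * r * s ^ 3 + B * s ^ 4) * n = (r ^ 2 - A * s ^ 2) ^ 2 - 8 * B * r * s ^ 3 := by
  obtain ⟨x, y, _, hy, he⟩ := double_coord A B Q n Y h hQ
  refine ⟨x.num, x.den, ?_, ?_⟩
  · rw [Int.isCoprime_iff_gcd_eq_one]
    exact x.reduced
  · have hs : (x.den : ℚ) ≠ 0 := by exact_mod_cast x.den_ne_zero
    have hx : x = x.num / x.den := (Rat.num_div_den x).symm
    rw [hy] at he
    set r := x.num
    set s := x.den
    have : (4 * ((r : ℚ) ^ 3 * s + A * r * s ^ 3 + B * s ^ 4) * n) =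
        (r ^ 2 - A * s ^ 2) ^ 2 - 8 * B * r * s ^ 3 := by
      rw [hx] at he
      field_simp at he
      linear_combination he
    exact_mod_cast this

/-- If `A ≡ -1` and `B ≡ 0` modulo `3` then no point with integral `x`-coordinate is a double. -/
theorem not_double_three (A B n : ℤ) (hA : (3 : ℤ) ∣ A + 1) (hB : (3 : ℤ) ∣ B) (Y : ℚ)
    (h : (curve A B).toAffine.Nonsingular (n : ℚ) Y) (Q : (curve A B).toAffine.Point) :
    Q + Q ≠ .some (n : ℚ) Y h := by
  intro hQ
  obtain ⟨r, s, hrs, he⟩ := double_int A B n Q Y h hQ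
  have hA' : (A : ZMod 3) = -1 := by
    have := (ZMod.intCast_zmod_eq_zero_iff_dvd (A + 1) 3).2 (by exact_mod_cast hA)
    push_cast at this
    linear_combination this
  have hB' : (B : ZMod 3) = 0 := (ZMod.intCast_zmod_eq_zero_iff_dvd B 3).2 (by exact_mod_cast hB)
  have he' : ((4 * (r ^ 3 * s + A * r * s ^ 3 + B * s ^ 4) * n : ℤ) : ZMod 3) =
      (((r ^ 2 - A * s ^ 2) ^ 2 - 8 * B * r * s ^ 3 : ℤ) : ZMod 3) := by rw [he]
  push_cast at he'
  rw [hA', hB'] at he'
  have hrs' : ¬ ((r : ZMod 3) = 0 ∧ (s : ZMod 3) = 0) := by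
    rintro ⟨h1, h2⟩
    obtain ⟨u, v, huv⟩ := hrs
    have : ((u * r + v * s : ℤ) : ZMod 3) = 1 := by rw [huv]; simp
    push_cast at this
    rw [h1, h2] at this
    simp at this
  revert he' hrs'
  generalize (r : ZMod 3) = r'
  generalize (s : ZMod 3) = s'
  generalize (n : ZMod 3) = n'
  revert r' s' n'
  decide

/-- If `A` and `B` are odd then there is no point of order two. -/
theorem no_two_torsion (A B : ℤ) (hA : Odd A) (hB : Odd B) (Q : (curve A B).toAffine.Point)
    (hQ : Q + Q = 0) : Q = 0 := by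
  rcases Q with _ | ⟨x, y, hxy⟩
  · rfl
  · exfalso
    by_cases hy : y = (curve A B).toAffine.negY x y
    · rw [negY_eq] at hy
      have hy0 : y = 0 := by linarith
      have he : y ^ 2 = x ^ 3 + A * x + B := (equation_iff A B x y).1 hxy.1
      rw [hy0] at he
      have hs : (x.den : ℚ) ≠ 0 := by exact_mod_cast x.den_ne_zero
      have hx : x = x.num / x.den := (Rat.num_div_den x).symm
      have hcop : IsCoprime x.num (x.den : ℤ) := by
        rw [Int.isCoprime_iff_gcd_eq_one]
        exact x.reduced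
      set r := x.num
      set s := x.den
      have he2 : ((r : ℚ) ^ 3 + A * r * s ^ 2 + B * s ^ 3) = 0 := by
        rw [hx] at he
        field_simp at he
        linear_combination -he
      have he3 : r ^ 3 + A * r * (s : ℤ) ^ 2 + B * (s : ℤ) ^ 3 = 0 := by exact_mod_cast he2
      have hA' : (A : ZMod 2) = 1 := by
        obtain ⟨k, rfl⟩ := hA
        push_cast
        have : (2 : ZMod 2) = 0 := rfl
        rw [this]; ring
      have hB' : (B : ZMod 2) = 1 := by
        obtain ⟨k, rfl⟩ := hB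
        push_cast
        have : (2 : ZMod 2) = 0 := rfl
        rw [this]; ring
      have he' : ((r ^ 3 + A * r * (s : ℤ) ^ 2 + B * (s : ℤ) ^ 3 : ℤ) : ZMod 2) = 0 := by
        rw [he3]; simp
      push_cast at he'
      rw [hA', hB'] at he'
      have hrs' : ¬ ((r : ZMod 2) = 0 ∧ (s : ZMod 2) = 0) := by
        rintro ⟨h1, h2⟩
        obtain ⟨u, v, huv⟩ := hcop
        have : ((u * r + v * s : ℤ) : ZMod 2) = 1 := by rw [huv]; simp
        push_cast at this
        rw [h1, h2] at this
        simp at this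
      revert he' hrs'
      generalize (r : ZMod 2) = r'
      generalize (s : ZMod 2) = s'
      revert r' s'
      decide
    · rw [WeierstrassCurve.Affine.Point.add_self_of_Y_ne hy] at hQ
      exact absurd hQ (WeierstrassCurve.Affine.Point.some_ne_zero _)

/-! ### Curves with a line meeting them in three integral points -/

/-- The parameters `a`, `b` (two `x`-coordinates), `k` (the slope) and `m` (the constant term). -/
def cA (a b k m : ℤ) : ℤ := 2 * k * m + (a * b + (a + b) * (k ^ 2 - a - b))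

def cB (a b k m : ℤ) : ℤ := m ^ 2 - a * b * (k ^ 2 - a - b)

theorem cubic_eq (a b k m x : ℤ) : x ^ 3 + cA a b k m * x + cB a b k m =
    (k * x + m) ^ 2 + (x - a) * (x - b) * (x - (k ^ 2 - a - b)) := by
  simp only [cA, cB]; ring


theorem cong_three (a b k m : ℤ) (ha : a % 3 = 0) (hb : b % 3 = 1) (hk : k % 3 = 0)
    (hm : m % 3 = 0) : (3 : ℤ) ∣ cA a b k m + 1 ∧ (3 : ℤ) ∣ cB a b k m := by
  obtain ⟨a', rfl⟩ := Int.dvd_of_emod_eq_zero ha
  obtain ⟨k', rfl⟩ := Int.dvd_of_emod_eq_zero hk
  obtain ⟨m', rfl⟩ := Int.dvd_of_emod_eq_zero hm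
  obtain ⟨b', rfl⟩ : ∃ b', b = 3 * b' + 1 := ⟨b / 3, by omega⟩
  constructor
  · simp only [cA]
    ring_nf
    refine ⟨(6 * k' * m' + a' * (3 * b' + 1) +
      (a' * ((3 * k') ^ 2 - 3 * a' - (3 * b' + 1))) +
      (b' * ((3 * k') ^ 2 - 3 * a' - (3 * b' + 1))) + 3 * k' ^ 2 - a' - b'), ?_⟩
    ring
  · simp only [cB]
    exact ⟨3 * m' ^ 2 - a' * (3 * b' + 1) * ((3 * k') ^ 2 - 3 * a' - (3 * b' + 1)), by ring⟩

theorem cong_two (a b k m : ℤ) (ha : a % 2 = 1) (hb : b % 2 = 1) (hk : k % 2 = 0)
    (hm : m % 2 = 1) : Odd (cA a b k m) ∧ Odd (cB a b k m) := by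
  have ha' : Odd a := Int.odd_iff.2 ha
  have hb' : Odd b := Int.odd_iff.2 hb
  have hk' : Even k := Int.even_iff.2 hk
  have hm' : Odd m := Int.odd_iff.2 hm
  have hc : Even (k ^ 2 - a - b) := by
    rw [sub_sub]
    exact (hk'.pow_of_ne_zero two_ne_zero).sub (ha'.add_odd hb')
  constructor
  · simp only [cA]
    exact Even.add_odd ((even_two.mul_right k).mul_right m)
      (Odd.add_even (ha'.mul hb') (hc.mul_left _))
  · simp only [cB]
    exact Odd.sub_even hm'.pow (hc.mul_left _)

theorem rank_two (a b k m : ℤ) (ha : a % 6 = 3) (hb : b % 6 = 1) (hk : k % 6 = 0)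
    (hm : m % 6 = 3) :
    4 * (cA a b k m) ^ 3 + 27 * (cB a b k m) ^ 2 ≠ 0 ∧
    2 ≤ Module.rank ℤ (curve (cA a b k m) (cB a b k m)).toAffine.Point := by
  obtain ⟨hA3, hB3⟩ := cong_three a b k m (by omega) (by omega) (by omega) (by omega)
  obtain ⟨hA2, hB2⟩ := cong_two a b k m (by omega) (by omega) (by omega) (by omega)
  set A := cA a b k m with hAdef
  set B := cB a b k m with hBdef
  have hD : 4 * A ^ 3 + 27 * B ^ 2 ≠ 0 := by
    intro h
    obtain ⟨u, hu⟩ := hA3
    have hA : A = 3 * u - 1 := by linarith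
    have : (3 : ℤ) ∣ 4 := by
      refine ⟨4 * (9 * u ^ 3 - 9 * u ^ 2 + 3 * u) + 9 * B ^ 2, ?_⟩
      rw [hA] at h
      linear_combination -h
    omega
  refine ⟨hD, ?_⟩
  have heq : ∀ x : ℤ, x = a ∨ x = b ∨ x = k ^ 2 - a - b →
      ((k * x + m : ℤ) : ℚ) ^ 2 = (x : ℚ) ^ 3 + A * x + B := by
    intro x hx
    have h1 := cubic_eq a b k m x
    have h2 : (x - a) * (x - b) * (x - (k ^ 2 - a - b)) = 0 := by
      rcases hx with h | h | h <;> rw [h] <;> ring
    rw [h2, add_zero] at h1
    have h3 : ((x ^ 3 + A * x + B : ℤ) : ℚ) = (((k * x + m) ^ 2 : ℤ) : ℚ) := by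
      exact_mod_cast h1
    push_cast at h3 ⊢
    exact h3.symm
  have hns : ∀ x : ℤ, x = a ∨ x = b ∨ x = k ^ 2 - a - b →
      (curve A B).toAffine.Nonsingular (x : ℚ) ((k * x + m : ℤ) : ℚ) := fun x hx =>
    (nonsingular_iff A B hD _ _).2 (heq x hx)
  let P : Fin 2 → (curve A B).toAffine.Point :=
    ![.some _ _ (hns a (Or.inl rfl)), .some _ _ (hns b (Or.inr (Or.inl rfl)))]
  have hab : (a : ℚ) ≠ b := by
    intro h
    have : a = b := by exact_mod_cast h
    omega
  -- the sum of the two points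
  have hsum : ∃ (c : ℤ) (Y : ℚ) (h : (curve A B).toAffine.Nonsingular (c : ℚ) Y),
      P 0 + P 1 = .some (c : ℚ) Y h := by
    have hadd : P 0 + P 1 = _ := WeierstrassCurve.Affine.Point.add_of_X_ne hab
      (h₁ := hns a (Or.inl rfl)) (h₂ := hns b (Or.inr (Or.inl rfl)))
    have hX : (curve A B).toAffine.addX (a : ℚ) b ((curve A B).toAffine.slope (a : ℚ) b
        ((k * a + m : ℤ) : ℚ) ((k * b + m : ℤ) : ℚ)) = ((k ^ 2 - a - b : ℤ) : ℚ) := by
      rw [WeierstrassCurve.Affine.slope_of_X_ne hab]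
      have : (((k * a + m : ℤ) : ℚ) - ((k * b + m : ℤ) : ℚ)) / ((a : ℚ) - b) = k := by
        rw [div_eq_iff (sub_ne_zero.2 hab)]
        push_cast; ring
      rw [this]
      simp [WeierstrassCurve.Affine.addX, curve]
    have hgen : ∀ (X Y : ℚ) (h : (curve A B).toAffine.Nonsingular X Y) (c : ℤ), X = c →
        ∃ (c : ℤ) (Y' : ℚ) (h' : (curve A B).toAffine.Nonsingular (c : ℚ) Y'),
          (WeierstrassCurve.Affine.Point.some X Y h) = .some (c : ℚ) Y' h' := by
      rintro X Y h c rfl
      exact ⟨c, Y, h, rfl⟩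
    rw [hadd]
    exact hgen _ _ _ _ hX
  have hli : LinearIndependent ℤ P := by
    refine linearIndependent_of_not_double (fun Q hQ => no_two_torsion A B hA2 hB2 Q hQ) P ?_
    intro S hS
    rintro ⟨Q, hQ⟩
    have hcases : S = {0} ∨ S = {1} ∨ S = {0, 1} := by
      revert hS
      clear hQ
      revert S
      decide
    rcases hcases with rfl | rfl | rfl
    · rw [Finset.sum_singleton] at hQ
      exact not_double_three A B a hA3 hB3 _ _ Q hQ
    · rw [Finset.sum_singleton] at hQ
      exact not_double_three A B b hA3 hB3 _ _ Q hQ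
    · rw [Finset.sum_pair (by decide)] at hQ
      obtain ⟨c, Y, h, hc⟩ := hsum
      rw [hc] at hQ
      exact not_double_three A B c hA3 hB3 _ _ Q hQ
  have := hli.cardinal_le_rank
  simpa using this

end Pool.Agent.H70
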