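import Mathlib
import Pool.Agent.H70.Rank

set_option autoImplicit false

namespace Pool.Agent.H70.Three

open Finset Pool.Agent.H70

/-- `r`, `m` and the abscissas as functions of the parameters `a`, `b`, `q`, `x`, `k`. -/
def rr (a b q x k : ℤ) : ℤ := 3 * x - 4 * a * b - q - k ^ 2
def mm (a b q x k : ℤ) : ℤ := b * rr a b q x k - a * q - k * x
def x2 (a b x : ℤ) : ℤ := x - 4 * a * b
def x3 (q x : ℤ) : ℤ := x - q
def x4 (a b q x k : ℤ) : ℤ := x - rr a b q x k
def y1 (a b q x k : ℤ) : ℤ := a * q + b * rr a b q x k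

def dA (a b q x k : ℤ) : ℤ := 2 * k * mm a b q x k +
  (x2 a b x * x3 q x + x2 a b x * x4 a b q x k + x3 q x * x4 a b q x k)
def dB (a b q x k : ℤ) : ℤ := mm a b q x k ^ 2 - x2 a b x * x3 q x * x4 a b q x k

theorem cubic_eq (a b q x k z : ℤ) : z ^ 3 + dA a b q x k * z + dB a b q x k =
    (k * z + mm a b q x k) ^ 2 + (z - x2 a b x) * (z - x3 q x) * (z - x4 a b q x k) := by
  simp only [dA, dB, mm, x2, x3, x4, rr]; ring

theorem cubic_one (a b q x k : ℤ) : x ^ 3 + dA a b q x k * x + dB a b q x k =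
    y1 a b q x k ^ 2 := by
  simp only [dA, dB, mm, x2, x3, x4, rr, y1]; ring

/-- The value of the cubic at `x + δ`. -/
theorem cubic_shift (a b q x k δ : ℤ) :
    (2 * b) ^ 2 * ((x + δ) ^ 3 + dA a b q x k * (x + δ) + dB a b q x k) =
    (2 * b ^ 2 * rr a b q x k + 2 * b * (k * δ - a * q) + (δ + 4 * a * b) * (δ + q)) ^ 2 +
      δ * (δ + 4 * a * b) * (δ + q) * (4 * b ^ 2 - 4 * b * k - 4 * a * b - q - δ) := by
  simp only [dA, dB, mm, x2, x3, x4, rr]; ring

theorem dA_sub (a b q x x' k : ℤ) : dA a b q x k - dA a b q x' k =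
    -3 * ((x - x') * (x + x' - (2 * k * b + 4 * a * b + q))) := by
  simp only [dA, mm, x2, x3, x4, rr]; ring

/-- The doubling relation in integers, for a rational abscissa `n / D`. -/
theorem double_rat (A B n D : ℤ) (X : ℚ) (hX : D * X = n) (Q : (curve A B).toAffine.Point) (Y : ℚ)
    (h : (curve A B).toAffine.Nonsingular X Y) (hQ : Q + Q = .some X Y h) :
    ∃ r s w : ℤ, IsCoprime r s ∧ w ^ 2 = s * (r ^ 3 + A * r * s ^ 2 + B * s ^ 3) ∧
      4 * w ^ 2 * n = D * ((r ^ 2 - A * s ^ 2) ^ 2 - 8 * B * r * s ^ 3) := by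
  obtain ⟨x, y, _, hy, he⟩ := double_coord A B Q X Y h hQ
  have hs : (x.den : ℚ) ≠ 0 := by exact_mod_cast x.den_ne_zero
  have hx : x = x.num / x.den := (Rat.num_div_den x).symm
  have hcop : IsCoprime x.num (x.den : ℤ) := by
    rw [Int.isCoprime_iff_gcd_eq_one]
    exact x.reduced
  set r := x.num
  set s := x.den
  have h1 : (y * s ^ 2) ^ 2 = ((s * (r ^ 3 + A * r * s ^ 2 + B * s ^ 3) : ℤ) : ℚ) := by
    have : (y * s ^ 2) ^ 2 = y ^ 2 * s ^ 4 := by ring
    rw [this, hy, hx]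
    push_cast
    field_simp
  obtain ⟨w, hw⟩ : ∃ w : ℤ, y * s ^ 2 = w := by
    have h2 : IsIntegral ℤ (y * (s : ℚ) ^ 2) := by
      refine IsIntegral.of_pow (n := 2) (by norm_num) ?_
      rw [h1]
      exact isIntegral_algebraMap (R := ℤ)
    obtain ⟨w, hw⟩ := (IsIntegrallyClosed.isIntegral_iff (R := ℤ) (K := ℚ)).1 h2
    exact ⟨w, by simpa using hw.symm⟩
  refine ⟨r, s, w, hcop, ?_, ?_⟩
  · rw [hw] at h1
    exact_mod_cast h1
  · have h3 : (4 * (w : ℚ) ^ 2 * n) = D * ((r ^ 2 - A * s ^ 2) ^ 2 - 8 * B * r * s ^ 3) := by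
      rw [← hw, ← hX]
      have h4 : 4 * (y * (s : ℚ) ^ 2) ^ 2 * (D * X) = D * (s ^ 4 * (4 * y ^ 2 * X)) := by ring
      rw [h4, he, hx]
      field_simp
    exact_mod_cast h3

theorem zmod_of_emod (n r : ℕ) [NeZero n] (A : ℤ) (h : A % n = r) : (A : ZMod n) = (r : ZMod n) := by
  have h1 : ((A % n : ℤ) : ZMod n) = (A : ZMod n) := by simp
  rw [← h1, h]; simp

/-- The obstruction modulo `5`. -/
theorem not_double_five (A B n D : ℤ) (X : ℚ) (hX : D * X = n) (hA : A % 5 = 3) (hB : B % 5 = 0)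
    (hD : D % 5 = 1) (hn : n % 5 = 2) (Y : ℚ)
    (h : (curve A B).toAffine.Nonsingular X Y) (Q : (curve A B).toAffine.Point) :
    Q + Q ≠ .some X Y h := by
  intro hQ
  obtain ⟨r, s, w, hrs, hw, he⟩ := double_rat A B n D X hX Q Y h hQ
  have hA' : (A : ZMod 5) = 3 := by
    have := zmod_of_emod 5 3 A (by exact_mod_cast hA); simpa using this
  have hB' : (B : ZMod 5) = 0 := by
    have := zmod_of_emod 5 0 B (by exact_mod_cast hB); simpa using this
  have hD' : (D : ZMod 5) = 1 := by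
    have := zmod_of_emod 5 1 D (by exact_mod_cast hD); simpa using this
  have hn' : (n : ZMod 5) = 2 := by
    have := zmod_of_emod 5 2 n (by exact_mod_cast hn); simpa using this
  have he' : ((4 * w ^ 2 * n : ℤ) : ZMod 5) =
      ((D * ((r ^ 2 - A * s ^ 2) ^ 2 - 8 * B * r * s ^ 3) : ℤ) : ZMod 5) := by rw [he]
  have hw' : ((w ^ 2 : ℤ) : ZMod 5) =
      ((s * (r ^ 3 + A * r * s ^ 2 + B * s ^ 3) : ℤ) : ZMod 5) := by rw [hw]
  push_cast at he' hw'
  rw [hA', hB', hD', hn'] at he'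
  rw [hA', hB'] at hw'
  have hrs' : ¬ ((r : ZMod 5) = 0 ∧ (s : ZMod 5) = 0) := by
    rintro ⟨h1, h2⟩
    obtain ⟨u, v, huv⟩ := hrs
    have : ((u * r + v * s : ℤ) : ZMod 5) = 1 := by rw [huv]; simp
    push_cast at this
    rw [h1, h2, mul_zero, mul_zero, add_zero] at this
    exact absurd this (by decide)
  revert he' hrs' hw'
  generalize (r : ZMod 5) = r'
  generalize (s : ZMod 5) = s'
  generalize (w : ZMod 5) = w'
  revert r' s' w'
  decide

/-- Congruences of the coefficients. -/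
theorem cong (a b q x k : ℤ) (ha : a % 30 = 6) (hb : b % 30 = 3) (hq : q % 30 = 16)
    (hx : x % 30 = 3) (hk : k % 30 = 0) :
    dA a b q x k % 30 = dA 6 3 16 3 0 % 30 ∧ dB a b q x k % 30 = dB 6 3 16 3 0 % 30 := by
  have ha' : a ≡ 6 [ZMOD 30] := ha
  have hb' : b ≡ 3 [ZMOD 30] := hb
  have hq' : q ≡ 16 [ZMOD 30] := hq
  have hx' : x ≡ 3 [ZMOD 30] := hx
  have hk' : k ≡ 0 [ZMOD 30] := hk
  have hr : rr a b q x k ≡ rr 6 3 16 3 0 [ZMOD 30] := by
    simp only [rr]; gcongr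
  have hm : mm a b q x k ≡ mm 6 3 16 3 0 [ZMOD 30] := by
    simp only [mm]; gcongr
  have h2 : x2 a b x ≡ x2 6 3 3 [ZMOD 30] := by
    simp only [x2]; gcongr
  have h3 : x3 q x ≡ x3 16 3 [ZMOD 30] := by
    simp only [x3]; gcongr
  have h4 : x4 a b q x k ≡ x4 6 3 16 3 0 [ZMOD 30] := by
    simp only [x4]; gcongr
  constructor
  · show _ ≡ _ [ZMOD 30]
    simp only [dA]; gcongr
  · show _ ≡ _ [ZMOD 30]
    simp only [dB]; gcongr


/-- Addition along a line of slope `μ`. -/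
theorem add_line (A B : ℤ) (X₁ Y₁ X₂ Y₂ μ : ℚ) (h₁ : (curve A B).toAffine.Nonsingular X₁ Y₁)
    (h₂ : (curve A B).toAffine.Nonsingular X₂ Y₂) (hx : X₁ ≠ X₂)
    (hμ : Y₁ - Y₂ = μ * (X₁ - X₂)) :
    ∃ h : (curve A B).toAffine.Nonsingular (μ ^ 2 - X₁ - X₂)
        (-(μ * (μ ^ 2 - X₁ - X₂ - X₁) + Y₁)),
      (.some X₁ Y₁ h₁ : (curve A B).toAffine.Point) + .some X₂ Y₂ h₂ =
        .some (μ ^ 2 - X₁ - X₂) (-(μ * (μ ^ 2 - X₁ - X₂ - X₁) + Y₁)) h := by
  have hadd := WeierstrassCurve.Affine.Point.add_of_X_ne hx (h₁ := h₁) (h₂ := h₂)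
  have hs : (curve A B).toAffine.slope X₁ X₂ Y₁ Y₂ = μ := by
    rw [WeierstrassCurve.Affine.slope_of_X_ne hx, div_eq_iff (sub_ne_zero.2 hx), hμ]
  have hX : (curve A B).toAffine.addX X₁ X₂ ((curve A B).toAffine.slope X₁ X₂ Y₁ Y₂) =
      μ ^ 2 - X₁ - X₂ := by
    rw [hs]
    simp [WeierstrassCurve.Affine.addX, curve]
  have hY : (curve A B).toAffine.addY X₁ X₂ Y₁ ((curve A B).toAffine.slope X₁ X₂ Y₁ Y₂) =
      -(μ * (μ ^ 2 - X₁ - X₂ - X₁) + Y₁) := by
    rw [hs]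
    simp [WeierstrassCurve.Affine.addY, WeierstrassCurve.Affine.negAddY,
      WeierstrassCurve.Affine.addX, WeierstrassCurve.Affine.negY, curve]
  have hgen : ∀ (X Y X' Y' : ℚ) (h : (curve A B).toAffine.Nonsingular X Y), X = X' → Y = Y' →
      ∃ h' : (curve A B).toAffine.Nonsingular X' Y',
        (.some X Y h : (curve A B).toAffine.Point) = .some X' Y' h' := by
    rintro X Y X' Y' h rfl rfl
    exact ⟨h, rfl⟩
  rw [hadd]
  exact hgen _ _ _ _ _ hX hY

theorem rank_three (a b q x k : ℤ) (ha : a % 30 = 6) (hb : b % 30 = 3) (hq : q % 30 = 16)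
    (hx : x % 30 = 3) (hk : k % 30 = 0) :
    4 * (dA a b q x k) ^ 3 + 27 * (dB a b q x k) ^ 2 ≠ 0 ∧
    3 ≤ Module.rank ℤ (curve (dA a b q x k) (dB a b q x k)).toAffine.Point := by
  obtain ⟨hA, hB⟩ := cong a b q x k ha hb hq hx hk
  have hA30 : dA a b q x k % 30 = 23 := by rw [hA]; decide
  have hB30 : dB a b q x k % 30 = 15 := by rw [hB]; decide
  -- residues of the remaining quantities
  have hr30 : rr a b q x k % 30 = 11 := by
    have ha' : a ≡ 6 [ZMOD 30] := ha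
    have hb' : b ≡ 3 [ZMOD 30] := hb
    have hq' : q ≡ 16 [ZMOD 30] := hq
    have hx' : x ≡ 3 [ZMOD 30] := hx
    have hk' : k ≡ 0 [ZMOD 30] := hk
    have hr : rr a b q x k ≡ rr 6 3 16 3 0 [ZMOD 30] := by
      simp only [rr]; gcongr
    have h11 : rr 6 3 16 3 0 % 30 = 11 := by decide
    exact Eq.trans hr h11
  set A := dA a b q x k with hAdef
  set B := dB a b q x k with hBdef
  set m := mm a b q x k with hm
  have hD : 4 * A ^ 3 + 27 * B ^ 2 ≠ 0 := by
    intro h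
    have hA3 : A % 3 = 2 := by omega
    obtain ⟨u, hu⟩ : ∃ u, A = 3 * u - 1 := ⟨A / 3 + 1, by omega⟩
    have : (3 : ℤ) ∣ 4 := by
      refine ⟨4 * (9 * u ^ 3 - 9 * u ^ 2 + 3 * u) + 9 * B ^ 2, ?_⟩
      rw [hu] at h
      linear_combination -h
    omega
  refine ⟨hD, ?_⟩
  have hA3 : (3 : ℤ) ∣ A + 1 := by omega
  have hB3 : (3 : ℤ) ∣ B := by omega
  have hA2 : Odd A := by rw [Int.odd_iff]; omega
  have hB2 : Odd B := by rw [Int.odd_iff]; omega
  have ha0 : (a : ℚ) ≠ 0 := by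
    have : a ≠ 0 := by omega
    exact_mod_cast this
  have hb0 : (b : ℚ) ≠ 0 := by
    have : b ≠ 0 := by omega
    exact_mod_cast this
  have hq0 : (q : ℚ) ≠ 0 := by
    have : q ≠ 0 := by omega
    exact_mod_cast this
  have hr0 : ((rr a b q x k : ℤ) : ℚ) ≠ 0 := by
    have : rr a b q x k ≠ 0 := by omega
    exact_mod_cast this
  -- the points
  have e1 : ((y1 a b q x k : ℤ) : ℚ) ^ 2 = (x : ℚ) ^ 3 + A * x + B := by
    have := cubic_one a b q x k
    exact_mod_cast this.symm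
  have e2 : ((k * x2 a b x + m : ℤ) : ℚ) ^ 2 = ((x2 a b x : ℤ) : ℚ) ^ 3 + A * (x2 a b x : ℤ) + B := by
    have := cubic_eq a b q x k (x2 a b x)
    rw [sub_self, zero_mul, zero_mul, add_zero] at this
    exact_mod_cast this.symm
  have e3 : ((k * x3 q x + m : ℤ) : ℚ) ^ 2 = ((x3 q x : ℤ) : ℚ) ^ 3 + A * (x3 q x : ℤ) + B := by
    have := cubic_eq a b q x k (x3 q x)
    rw [sub_self, mul_zero, zero_mul, add_zero] at this
    exact_mod_cast this.symm
  have n1 := (nonsingular_iff A B hD _ _).2 e1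
  have n2 := (nonsingular_iff A B hD _ _).2 e2
  have n3 := (nonsingular_iff A B hD _ _).2 e3
  let P : Fin 3 → (curve A B).toAffine.Point :=
    ![.some _ _ n1, .some _ _ n2, .some _ _ n3]
  have hne12 : (x : ℚ) ≠ ((x2 a b x : ℤ) : ℚ) := by
    intro h
    simp only [x2] at h
    push_cast at h
    have : 4 * (a : ℚ) * b = 0 := by linarith
    exact (mul_ne_zero (mul_ne_zero (by norm_num) ha0) hb0) this
  have hne13 : (x : ℚ) ≠ ((x3 q x : ℤ) : ℚ) := by
    intro h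
    simp only [x3] at h
    push_cast at h
    exact hq0 (by linarith)
  have hne23 : ((x2 a b x : ℤ) : ℚ) ≠ ((x3 q x : ℤ) : ℚ) := by
    intro h
    have h' : x2 a b x = x3 q x := by exact_mod_cast h
    simp only [x2, x3] at h'
    have h4 : 4 * a * b = q := by linarith
    have h5 : (4 * a * b) % 3 = 0 := by
      have : a % 3 = 0 := by omega
      obtain ⟨a', rfl⟩ := Int.dvd_of_emod_eq_zero this
      have : 4 * (3 * a') * b = 3 * (4 * a' * b) := by ring
      omega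
    omega
  have hne14 : (x : ℚ) ≠ ((x4 a b q x k : ℤ) : ℚ) := by
    intro h
    simp only [x4] at h
    push_cast at h
    exact hr0 (by linarith)
  -- `P 0 + P 1`
  have s01 : ∃ (X Y : ℚ) (h : (curve A B).toAffine.Nonsingular X Y),
      P 0 + P 1 = .some X Y h ∧
        (((4 * b ^ 2 : ℤ) : ℚ)) * X = (((q + 2 * b * k) ^ 2 - 4 * b ^ 2 * (2 * x - 4 * a * b) : ℤ) : ℚ) := by
    obtain ⟨h, hh⟩ := add_line A B _ _ _ _ (((q : ℚ) + 2 * b * k) / (2 * b)) n1 n2 hne12 (by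
      rw [hm]
      simp only [y1, x2, mm, rr]
      push_cast
      field_simp
      ring)
    refine ⟨_, _, h, hh, ?_⟩
    simp only [x2]
    push_cast
    field_simp
    ring
  have s12 : ∃ h, P 1 + P 2 = .some ((x4 a b q x k : ℤ) : ℚ) (((-(k * x4 a b q x k + m) : ℤ)) : ℚ) h := by
    obtain ⟨h, hh⟩ := add_line A B _ _ _ _ (k : ℚ) n2 n3 hne23 (by push_cast; ring)
    have eX : (k : ℚ) ^ 2 - (x2 a b x : ℤ) - (x3 q x : ℤ) = ((x4 a b q x k : ℤ) : ℚ) := by
      simp only [x2, x3, x4, rr]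
      push_cast; ring
    have eY : -((k : ℚ) * ((k : ℚ) ^ 2 - (x2 a b x : ℤ) - (x3 q x : ℤ) - (x2 a b x : ℤ)) +
        ((k * x2 a b x + m : ℤ) : ℚ)) = (((-(k * x4 a b q x k + m) : ℤ)) : ℚ) := by
      rw [eX]; push_cast; ring
    have hgen : ∀ (X Y X' Y' : ℚ) (h : (curve A B).toAffine.Nonsingular X Y), X = X' → Y = Y' →
        ∃ h' : (curve A B).toAffine.Nonsingular X' Y',
          (.some X Y h : (curve A B).toAffine.Point) = .some X' Y' h' := by
      rintro X Y X' Y' h rfl rfl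
      exact ⟨h, rfl⟩
    have hP : P 1 + P 2 = _ := hh
    rw [hP]
    exact hgen _ _ _ _ h eX eY
  have s02 : ∃ (c : ℤ) (Y : ℚ) (h : (curve A B).toAffine.Nonsingular (c : ℚ) Y),
      P 0 + P 2 = .some (c : ℚ) Y h := by
    obtain ⟨h, hh⟩ := add_line A B _ _ _ _ ((2 * a + k : ℤ) : ℚ) n1 n3 hne13 (by
      rw [hm]
      simp only [y1, x3, mm, rr]
      push_cast
      ring)
    have eX : ((2 * a + k : ℤ) : ℚ) ^ 2 - (x : ℚ) - (x3 q x : ℤ) =
        (((2 * a + k) ^ 2 - x - x3 q x : ℤ) : ℚ) := by push_cast; ring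
    have hgen : ∀ (X Y : ℚ) (h : (curve A B).toAffine.Nonsingular X Y) (c : ℤ), X = c →
        ∃ (c : ℤ) (Y' : ℚ) (h' : (curve A B).toAffine.Nonsingular (c : ℚ) Y'),
          (.some X Y h : (curve A B).toAffine.Point) = .some (c : ℚ) Y' h' := by
      rintro X Y h c rfl
      exact ⟨c, Y, h, rfl⟩
    have hP : P 0 + P 2 = _ := hh
    rw [hP]
    exact hgen _ _ h _ eX
  have s012 : ∃ (c : ℤ) (Y : ℚ) (h : (curve A B).toAffine.Nonsingular (c : ℚ) Y),
      P 0 + (P 1 + P 2) = .some (c : ℚ) Y h := by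
    obtain ⟨h12, hh12⟩ := s12
    obtain ⟨h, hh⟩ := add_line A B _ _ _ _ ((2 * b - k : ℤ) : ℚ) n1 h12 hne14 (by
      rw [hm]
      simp only [y1, x4, mm, rr]
      push_cast
      ring)
    have eX : ((2 * b - k : ℤ) : ℚ) ^ 2 - (x : ℚ) - (x4 a b q x k : ℤ) =
        (((2 * b - k) ^ 2 - x - x4 a b q x k : ℤ) : ℚ) := by push_cast; ring
    have hgen : ∀ (X Y : ℚ) (h : (curve A B).toAffine.Nonsingular X Y) (c : ℤ), X = c →
        ∃ (c : ℤ) (Y' : ℚ) (h' : (curve A B).toAffine.Nonsingular (c : ℚ) Y'),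
          (.some X Y h : (curve A B).toAffine.Point) = .some (c : ℚ) Y' h' := by
      rintro X Y h c rfl
      exact ⟨c, Y, h, rfl⟩
    rw [hh12]
    have hP : P 0 + .some _ _ h12 = _ := hh
    rw [hP]
    exact hgen _ _ h _ eX
  have hli : LinearIndependent ℤ P := by
    refine linearIndependent_of_not_double (fun Q hQ => no_two_torsion A B hA2 hB2 Q hQ) P ?_
    intro S hS
    rintro ⟨Q, hQ⟩
    have hcases : S = {0} ∨ S = {1} ∨ S = {2} ∨ S = {0, 1} ∨ S = {0, 2} ∨ S = {1, 2} ∨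
        S = {0, 1, 2} := by
      revert hS
      clear hQ
      revert S
      decide
    rcases hcases with rfl | rfl | rfl | rfl | rfl | rfl | rfl
    · rw [Finset.sum_singleton] at hQ
      exact not_double_three A B x hA3 hB3 _ _ Q hQ
    · rw [Finset.sum_singleton] at hQ
      exact not_double_three A B (x2 a b x) hA3 hB3 _ _ Q hQ
    · rw [Finset.sum_singleton] at hQ
      exact not_double_three A B (x3 q x) hA3 hB3 _ _ Q hQ
    · rw [Finset.sum_pair (by decide)] at hQ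
      obtain ⟨X, Y, h, hc, hX⟩ := s01
      rw [hc] at hQ
      refine not_double_five A B _ _ X hX (by omega) (by omega) ?_ ?_ Y h Q hQ
      · have hb' : b ≡ 3 [ZMOD 5] := by
          show b % 5 = 3 % 5
          omega
        have : (4 * b ^ 2) ≡ 4 * 3 ^ 2 [ZMOD 5] := by gcongr
        exact this
      · have hb' : b ≡ 3 [ZMOD 5] := by
          show b % 5 = 3 % 5
          omega
        have ha' : a ≡ 1 [ZMOD 5] := by
          show a % 5 = 1 % 5
          omega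
        have hq' : q ≡ 1 [ZMOD 5] := by
          show q % 5 = 1 % 5
          omega
        have hx' : x ≡ 3 [ZMOD 5] := by
          show x % 5 = 3 % 5
          omega
        have hk' : k ≡ 0 [ZMOD 5] := by
          show k % 5 = 0 % 5
          omega
        have : ((q + 2 * b * k) ^ 2 - 4 * b ^ 2 * (2 * x - 4 * a * b)) ≡
            ((1 + 2 * 3 * 0) ^ 2 - 4 * 3 ^ 2 * (2 * 3 - 4 * 1 * 3)) [ZMOD 5] := by gcongr
        exact this
    · rw [Finset.sum_pair (by decide)] at hQ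
      obtain ⟨c, Y, h, hc⟩ := s02
      rw [hc] at hQ
      exact not_double_three A B c hA3 hB3 _ _ Q hQ
    · rw [Finset.sum_pair (by decide)] at hQ
      obtain ⟨h, hc⟩ := s12
      rw [hc] at hQ
      exact not_double_three A B _ hA3 hB3 _ _ Q hQ
    · rw [Finset.sum_insert (by decide), Finset.sum_pair (by decide)] at hQ
      obtain ⟨c, Y, h, hc⟩ := s012
      rw [hc] at hQ
      exact not_double_three A B c hA3 hB3 _ _ Q hQ
  have := hli.cardinal_le_rank
  simpa using this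

end Pool.Agent.H70.Three
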