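import Mathlib
import Pool.Agent.H70.DivBound
import Pool.Agent.H70.RankThree
import Pool.Agent.H70.Count

set_option autoImplicit false

namespace Pool.Agent.H70.Three

open Finset Classical Pool.Agent.H70

/-- If `q ^ 4` divides `u * v` for a prime `q`, then `q ^ 2` divides `u` or `v`. -/
theorem pow_two_dvd (q : ℤ) (hqp : Prime q) (u v : ℤ) (h : q ^ 4 ∣ u * v) :
    q ^ 2 ∣ u ∨ q ^ 2 ∣ v := by
  by_cases h1 : q ^ 2 ∣ u
  · exact Or.inl h1
  right
  by_cases hu1 : q ∣ u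
  · have hl : ∀ l : ℕ, l ≤ 2 → q ^ l ∣ v := by
      intro l
      induction l with
      | zero => intro _; simp
      | succ l ih =>
        intro hl
        rcases succ_dvd_or_succ_dvd_of_succ_sum_dvd_mul (k := 1) hqp (by simpa using hu1)
          (ih (by omega)) (dvd_trans (pow_dvd_pow q (by omega)) h) with h' | h'
        · exact absurd h' h1
        · exact h'
    exact hl 2 le_rfl
  · have hl : ∀ l : ℕ, l ≤ 2 → q ^ l ∣ v := by
      intro l
      induction l with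
      | zero => intro _; simp
      | succ l ih =>
        intro hl
        rcases succ_dvd_or_succ_dvd_of_succ_sum_dvd_mul (k := 0) hqp (by simp)
          (ih (by omega)) (dvd_trans (pow_dvd_pow q (by omega)) h) with h' | h'
        · exact absurd (by simpa using h') hu1
        · exact h'
    exact hl 2 le_rfl

/-- Values of a function with `g n - g n' = c (n - n') (30 n + 30 n' + s)`, `c` prime to `q`. -/
theorem card_quadratic_class (L : ℕ) (g : ℕ → ℤ) (s : ℤ)
    (hg : ∀ n n' : ℕ, g n - g n' = -90 * (((n : ℤ) - n') * (30 * (n : ℤ) + (30 * n' + s))))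
    (q : ℕ) (hq : q.Prime) (h7 : 7 ≤ q) :
    ((range L).filter (fun n : ℕ => (q : ℤ) ^ 4 ∣ g n)).card ≤ 2 * (L / q ^ 2 + 1) := by
  set S := (range L).filter (fun n : ℕ => (q : ℤ) ^ 4 ∣ g n) with hSdef
  have hqp : Prime (q : ℤ) := Nat.prime_iff_prime_int.1 hq
  have hcop0 : ∀ k : ℕ, Nat.Coprime q k → IsCoprime (q : ℤ) (k : ℤ) := by
    intro k h
    rw [Int.isCoprime_iff_gcd_eq_one]
    exact_mod_cast h
  have hc : ∀ k : ℕ, k = 2 ∨ k = 3 ∨ k = 5 → Nat.Coprime q k := by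
    intro k hk
    rw [Nat.Prime.coprime_iff_not_dvd hq]
    intro h
    have := Nat.le_of_dvd (by omega) h
    omega
  have hc30 : Nat.Coprime q 30 := by
    have : (30 : ℕ) = 2 * 3 * 5 := by norm_num
    rw [this]
    exact Nat.Coprime.mul_right (Nat.Coprime.mul_right (hc 2 (by simp)) (hc 3 (by simp)))
      (hc 5 (by simp))
  have hc90 : Nat.Coprime q 90 := by
    have : (90 : ℕ) = 30 * 3 := by norm_num
    rw [this]
    exact Nat.Coprime.mul_right hc30 (hc 3 (by simp))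
  have hcop30 : IsCoprime ((q : ℤ) ^ 2) 30 := IsCoprime.pow_left (by exact_mod_cast hcop0 30 hc30)
  have hcop90 : IsCoprime ((q : ℤ) ^ 4) (-90) :=
    IsCoprime.pow_left (IsCoprime.neg_right (by exact_mod_cast hcop0 90 hc90))
  rcases S.eq_empty_or_nonempty with h0 | ⟨n₀, hn₀⟩
  · rw [h0]; simp
  have hn₀' := (mem_filter.1 hn₀).2
  have hcover : S ⊆ (S.filter (fun n : ℕ => (q : ℤ) ^ 2 ∣ (n : ℤ) - n₀)) ∪
      (S.filter (fun n : ℕ => (q : ℤ) ^ 2 ∣ 30 * (n : ℤ) + (30 * n₀ + s))) := by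
    intro n hn
    have hn' := (mem_filter.1 hn).2
    have hd : (q : ℤ) ^ 4 ∣ -90 * (((n : ℤ) - n₀) * (30 * (n : ℤ) + (30 * n₀ + s))) := by
      rw [← hg]
      exact dvd_sub hn' hn₀'
    rcases pow_two_dvd q hqp _ _ (hcop90.dvd_of_dvd_mul_left hd) with h | h
    · exact mem_union_left _ (mem_filter.2 ⟨hn, h⟩)
    · exact mem_union_right _ (mem_filter.2 ⟨hn, h⟩)
  refine (card_le_card hcover).trans ((card_union_le _ _).trans ?_)
  have e1 : (S.filter (fun n : ℕ => (q : ℤ) ^ 2 ∣ (n : ℤ) - n₀)).card ≤ L / q ^ 2 + 1 := by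
    apply card_le_of_congr
    · intro n hn
      exact mem_range.1 (mem_filter.1 (mem_filter.1 hn).1).1
    · intro n hn n' hn'
      have h1 := (mem_filter.1 hn).2
      have h2 := (mem_filter.1 hn').2
      have := dvd_sub h1 h2
      push_cast
      refine this.trans (dvd_of_eq ?_)
      ring
  have e2 : (S.filter (fun n : ℕ => (q : ℤ) ^ 2 ∣ 30 * (n : ℤ) + (30 * n₀ + s))).card ≤
      L / q ^ 2 + 1 := by
    apply card_le_of_congr
    · intro n hn
      exact mem_range.1 (mem_filter.1 (mem_filter.1 hn).1).1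
    · intro n hn n' hn'
      have h1 := (mem_filter.1 hn).2
      have h2 := (mem_filter.1 hn').2
      have := dvd_sub h1 h2
      push_cast
      have h' : (q : ℤ) ^ 2 ∣ 30 * ((n : ℤ) - n') := by
        refine this.trans (dvd_of_eq ?_)
        ring
      exact hcop30.dvd_of_dvd_mul_left h'
  omega

/-- `∑ 1 / q²` over `7 ≤ q ≤ N` is at most `1 / 6`. -/
theorem sum_inv_squares (N : ℕ) : ∑ q ∈ Icc 7 N, (1 : ℝ) / (q : ℝ) ^ 2 ≤ 1 / 6 := by
  have key : ∀ N : ℕ, 6 ≤ N → ∑ q ∈ Icc 7 N, (1 : ℝ) / (q : ℝ) ^ 2 ≤ 1 / 6 - 1 / (N : ℝ) := by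
    intro N hN
    induction N, hN using Nat.le_induction with
    | base => norm_num
    | succ N hN ih =>
      rw [Finset.sum_Icc_succ_top (by omega)]
      have hN' : (6 : ℝ) ≤ N := by exact_mod_cast hN
      have : (1 : ℝ) / ((N + 1 : ℕ) : ℝ) ^ 2 ≤ 1 / (N : ℝ) - 1 / ((N + 1 : ℕ) : ℝ) := by
        push_cast
        rw [div_sub_div _ _ (by positivity) (by positivity), div_le_div_iff₀ (by positivity)
          (by positivity)]
        nlinarith
      linarith
  rcases le_or_gt 6 N with h | h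
  · refine (key N h).trans ?_
    have : (0 : ℝ) ≤ 1 / (N : ℝ) := by positivity
    linarith
  · rw [Finset.Icc_eq_empty (by omega)]
    norm_num

/-- The number of `n < L` such that `q ^ 4 ∣ g n` for some prime `7 ≤ q ≤ N`. -/
theorem card_nonreduced (L N : ℕ) (g : ℕ → ℤ) (s : ℤ)
    (hg : ∀ n n' : ℕ, g n - g n' = -90 * (((n : ℤ) - n') * (30 * (n : ℤ) + (30 * n' + s)))) :
    (((range L).filter (fun n : ℕ => ∃ q : ℕ, q.Prime ∧ 7 ≤ q ∧ q ≤ N ∧
      (q : ℤ) ^ 4 ∣ g n)).card : ℝ) ≤ L / 3 + 2 * N := by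
  have h1 : (range L).filter (fun n : ℕ => ∃ q : ℕ, q.Prime ∧ 7 ≤ q ∧ q ≤ N ∧
      (q : ℤ) ^ 4 ∣ g n) ⊆
      ((Icc 7 N).filter Nat.Prime).biUnion (fun q =>
        (range L).filter (fun n : ℕ => (q : ℤ) ^ 4 ∣ g n)) := by
    intro n hn
    obtain ⟨hn1, q, hq, h5, hN, hd⟩ := mem_filter.1 hn
    rw [mem_biUnion]
    exact ⟨q, mem_filter.2 ⟨mem_Icc.2 ⟨h5, hN⟩, hq⟩, mem_filter.2 ⟨hn1, hd⟩⟩
  have h2 := (card_le_card h1).trans card_biUnion_le
  have h3 : (∑ q ∈ (Icc 7 N).filter Nat.Prime,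
      ((range L).filter (fun n : ℕ => (q : ℤ) ^ 4 ∣ g n)).card : ℕ) ≤
      ∑ q ∈ Icc 7 N, 2 * (L / q ^ 2 + 1) := by
    refine (Finset.sum_le_sum fun q hq => ?_).trans
      (Finset.sum_le_sum_of_subset (Finset.filter_subset _ _))
    obtain ⟨hq1, hq2⟩ := mem_filter.1 hq
    exact card_quadratic_class L g s hg q hq2 (mem_Icc.1 hq1).1
  have h4 : ((∑ q ∈ Icc 7 N, 2 * (L / q ^ 2 + 1) : ℕ) : ℝ) ≤ L / 3 + 2 * N := by
    push_cast
    calc ∑ q ∈ Icc 7 N, 2 * (((L / q ^ 2 : ℕ) : ℝ) + 1)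
        ≤ ∑ q ∈ Icc 7 N, (2 * L * (1 / (q : ℝ) ^ 2) + 2) := by
          refine Finset.sum_le_sum fun q _ => ?_
          have : ((L / q ^ 2 : ℕ) : ℝ) ≤ L / ((q ^ 2 : ℕ) : ℝ) := Nat.cast_div_le
          push_cast at this
          have h5 : (L : ℝ) / (q : ℝ) ^ 2 = L * (1 / (q : ℝ) ^ 2) := by ring
          rw [h5] at this
          linarith
      _ = 2 * L * (∑ q ∈ Icc 7 N, (1 / (q : ℝ) ^ 2)) + 2 * (Icc 7 N).card := by
          rw [Finset.sum_add_distrib, ← Finset.mul_sum, Finset.sum_const, nsmul_eq_mul]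
          ring
      _ ≤ 2 * L * (1 / 6) + 2 * N := by
          have h6 := sum_inv_squares N
          have h7 : ((Icc 7 N).card : ℝ) ≤ N := by
            rw [Nat.card_Icc]
            exact_mod_cast (by omega : N + 1 - 7 ≤ N)
          have h8 : (0 : ℝ) ≤ 2 * L := by positivity
          nlinarith [mul_le_mul_of_nonneg_left h6 h8]
      _ = L / 3 + 2 * N := by ring
  calc (((range L).filter (fun n : ℕ => ∃ q : ℕ, q.Prime ∧ 7 ≤ q ∧ q ≤ N ∧
      (q : ℤ) ^ 4 ∣ g n)).card : ℝ)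
      ≤ ((∑ q ∈ Icc 7 N, 2 * (L / q ^ 2 + 1) : ℕ) : ℝ) := by exact_mod_cast h2.trans h3
    _ ≤ _ := h4

/-! ### The parameters -/

/-- Indices for `a`, `b`, `q`, `k`, and the index for `x`. -/
abbrev Par := ℕ × ℕ × ℕ × ℕ × ℕ

def pa (p : Par) : ℤ := 30 * p.1 + 6
def pb (p : Par) : ℤ := 30 * p.2.1 + 3
def pq (p : Par) : ℤ := 30 * p.2.2.1 + 16
def pk (p : Par) : ℤ := 30 * p.2.2.2.1
def px (p : Par) : ℤ := 30 * p.2.2.2.2 + 3

def F (p : Par) : ℤ × ℤ :=
  (dA (pa p) (pb p) (pq p) (px p) (pk p), dB (pa p) (pb p) (pq p) (px p) (pk p))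

def box (t : ℕ) : Finset Par :=
  range t ×ˢ range t ×ˢ range (t ^ 2) ×ˢ range t ×ˢ range (t ^ 2)

theorem card_box (t : ℕ) : (box t).card = t ^ 7 := by
  simp only [box, card_product, card_range]
  ring

theorem bounds {t : ℕ} {p : Par} (hp : p ∈ box t) :
    (0 < pa p ∧ pa p ≤ 30 * t) ∧ (0 < pb p ∧ pb p ≤ 30 * t) ∧ (0 < pq p ∧ pq p ≤ 30 * (t : ℤ) ^ 2) ∧
    (0 ≤ pk p ∧ pk p ≤ 30 * t) ∧ (0 < px p ∧ px p ≤ 30 * (t : ℤ) ^ 2) := by
  simp only [box, mem_product, mem_range] at hp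
  obtain ⟨h1, h2, h3, h4, h5⟩ := hp
  have h1' : (p.1 : ℤ) + 1 ≤ t := by exact_mod_cast h1
  have h2' : (p.2.1 : ℤ) + 1 ≤ t := by exact_mod_cast h2
  have h3' : (p.2.2.1 : ℤ) + 1 ≤ (t : ℤ) ^ 2 := by exact_mod_cast h3
  have h4' : (p.2.2.2.1 : ℤ) + 1 ≤ t := by exact_mod_cast h4
  have h5' : (p.2.2.2.2 : ℤ) + 1 ≤ (t : ℤ) ^ 2 := by exact_mod_cast h5
  simp only [pa, pb, pq, pk, px]
  refine ⟨⟨by positivity, by linarith⟩, ⟨by positivity, by linarith⟩, ⟨by positivity, by linarith⟩,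
    ⟨by positivity, by linarith⟩, ⟨by positivity, by linarith⟩⟩


theorem sizes {T a b q x k : ℤ} (hT : 0 ≤ T) (ha : 0 < a ∧ a ≤ 30 * T) (hb : 0 < b ∧ b ≤ 30 * T)
    (hq : 0 < q ∧ q ≤ 30 * T ^ 2) (hk : 0 ≤ k ∧ k ≤ 30 * T) (hx : 0 < x ∧ x ≤ 30 * T ^ 2) :
    |4 * a * b| ≤ 3600 * T ^ 2 ∧ |x2 a b x| ≤ 3600 * T ^ 2 ∧ |x3 q x| ≤ 30 * T ^ 2 ∧
    |x4 a b q x k| ≤ 4560 * T ^ 2 ∧ |dA a b q x k| ≤ 25000000 * T ^ 4 ∧
    |dB a b q x k| ≤ 20000000000 * T ^ 6 ∧
    |4 * b ^ 2 - 4 * b * k - 4 * a * b - q| ≤ 10830 * T ^ 2 := by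
  have hab : 0 ≤ a * b ∧ a * b ≤ 900 * T ^ 2 := by
    refine ⟨mul_nonneg ha.1.le hb.1.le, ?_⟩
    calc a * b ≤ (30 * T) * (30 * T) := mul_le_mul ha.2 hb.2 hb.1.le (by positivity)
      _ = 900 * T ^ 2 := by ring
  have hbk : 0 ≤ b * k ∧ b * k ≤ 900 * T ^ 2 := by
    refine ⟨mul_nonneg hb.1.le hk.1, ?_⟩
    calc b * k ≤ (30 * T) * (30 * T) := mul_le_mul hb.2 hk.2 hk.1 (by positivity)
      _ = 900 * T ^ 2 := by ring
  have hbb : 0 ≤ b ^ 2 ∧ b ^ 2 ≤ 900 * T ^ 2 := by
    refine ⟨by positivity, ?_⟩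
    calc b ^ 2 ≤ (30 * T) ^ 2 := pow_le_pow_left₀ hb.1.le hb.2 2
      _ = 900 * T ^ 2 := by ring
  have hkk : 0 ≤ k ^ 2 ∧ k ^ 2 ≤ 900 * T ^ 2 := by
    refine ⟨by positivity, ?_⟩
    calc k ^ 2 ≤ (30 * T) ^ 2 := pow_le_pow_left₀ hk.1 hk.2 2
      _ = 900 * T ^ 2 := by ring
  have hr : |rr a b q x k| ≤ 4530 * T ^ 2 := by
    rw [abs_le, rr]
    constructor <;> linarith
  have h1 : |4 * a * b| ≤ 3600 * T ^ 2 := by
    rw [abs_le]; constructor <;> linarith
  have h2 : |x2 a b x| ≤ 3600 * T ^ 2 := by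
    rw [abs_le, x2]; constructor <;> linarith
  have h3 : |x3 q x| ≤ 30 * T ^ 2 := by
    rw [abs_le, x3]; constructor <;> linarith
  have h4 : |x4 a b q x k| ≤ 4560 * T ^ 2 := by
    rw [abs_le] at hr
    rw [abs_le, x4]; constructor <;> linarith
  have hm : |mm a b q x k| ≤ 137700 * T ^ 3 := by
    have e1 : |b * rr a b q x k| ≤ 30 * T * (4530 * T ^ 2) := by
      rw [abs_mul, abs_of_pos hb.1]
      exact mul_le_mul hb.2 hr (abs_nonneg _) (by positivity)
    have e2 : |a * q| ≤ 30 * T * (30 * T ^ 2) := by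
      rw [abs_mul, abs_of_pos ha.1, abs_of_pos hq.1]
      exact mul_le_mul ha.2 hq.2 hq.1.le (by positivity)
    have e3 : |k * x| ≤ 30 * T * (30 * T ^ 2) := by
      rw [abs_mul, abs_of_nonneg hk.1, abs_of_pos hx.1]
      exact mul_le_mul hk.2 hx.2 hx.1.le (by positivity)
    have e4 : |mm a b q x k| ≤ |b * rr a b q x k| + |a * q| + |k * x| := by
      rw [mm]
      exact (abs_sub _ _).trans (add_le_add_left (abs_sub _ _) _)
    have e5 : 30 * T * (4530 * T ^ 2) + 30 * T * (30 * T ^ 2) + 30 * T * (30 * T ^ 2) =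
      137700 * T ^ 3 := by ring
    linarith
  refine ⟨h1, h2, h3, h4, ?_, ?_, ?_⟩
  · have e1 : |2 * k * mm a b q x k| ≤ 60 * T * (137700 * T ^ 3) := by
      rw [abs_mul, abs_of_nonneg (by linarith [hk.1] : 0 ≤ 2 * k)]
      exact mul_le_mul (by linarith [hk.2]) hm (abs_nonneg _) (by positivity)
    have e2 : |x2 a b x * x3 q x| ≤ 3600 * T ^ 2 * (30 * T ^ 2) := by
      rw [abs_mul]; exact mul_le_mul h2 h3 (abs_nonneg _) (by positivity)
    have e3 : |x2 a b x * x4 a b q x k| ≤ 3600 * T ^ 2 * (4560 * T ^ 2) := by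
      rw [abs_mul]; exact mul_le_mul h2 h4 (abs_nonneg _) (by positivity)
    have e4 : |x3 q x * x4 a b q x k| ≤ 30 * T ^ 2 * (4560 * T ^ 2) := by
      rw [abs_mul]; exact mul_le_mul h3 h4 (abs_nonneg _) (by positivity)
    have e5 : |dA a b q x k| ≤ |2 * k * mm a b q x k| + (|x2 a b x * x3 q x| +
        |x2 a b x * x4 a b q x k| + |x3 q x * x4 a b q x k|) := by
      rw [dA]
      exact (abs_add_le _ _).trans (add_le_add_right ((abs_add_le _ _).trans
        (add_le_add_left (abs_add_le _ _) _)) _)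
    have e6 : 60 * T * (137700 * T ^ 3) + (3600 * T ^ 2 * (30 * T ^ 2) +
      3600 * T ^ 2 * (4560 * T ^ 2) + 30 * T ^ 2 * (4560 * T ^ 2)) = 24922800 * T ^ 4 := by ring
    have e7 : 0 ≤ T ^ 4 := by positivity
    linarith
  · have e1 : |mm a b q x k ^ 2| ≤ (137700 * T ^ 3) ^ 2 := by
      rw [abs_pow]
      exact pow_le_pow_left₀ (abs_nonneg _) hm 2
    have e2 : |x2 a b x * x3 q x * x4 a b q x k| ≤ 3600 * T ^ 2 * (30 * T ^ 2) * (4560 * T ^ 2) := by
      rw [abs_mul, abs_mul]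
      exact mul_le_mul (mul_le_mul h2 h3 (abs_nonneg _) (by positivity)) h4 (abs_nonneg _)
        (by positivity)
    have e3 : |dB a b q x k| ≤ |mm a b q x k ^ 2| + |x2 a b x * x3 q x * x4 a b q x k| := by
      rw [dB]
      exact abs_sub _ _
    have e4 : (137700 * T ^ 3) ^ 2 + 3600 * T ^ 2 * (30 * T ^ 2) * (4560 * T ^ 2) =
      19453770000 * T ^ 6 := by ring
    have e7 : 0 ≤ T ^ 6 := by positivity
    linarith
  · rw [abs_le]; constructor <;> linarith

/-- The further integral abscissas. -/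
noncomputable def extra (t : ℕ) (p : Par) : Finset ℤ :=
  (Icc (-(4560 * (t : ℤ) ^ 2)) (4560 * (t : ℤ) ^ 2)).filter (fun z =>
    z ≠ px p ∧ z ≠ x2 (pa p) (pb p) (px p) ∧ z ≠ x3 (pq p) (px p) ∧
    z ≠ px p + (4 * pb p ^ 2 - 4 * pb p * pk p - 4 * pa p * pb p - pq p) ∧
    ∃ y : ℤ, y ^ 2 = z ^ 3 + (F p).1 * z + (F p).2)

theorem sum_extra (t : ℕ) (ht : 1 ≤ t) (M : ℕ) (hM : ∀ N : ℤ, N ≠ 0 →
    |N| ≤ 3000000000000000 * (t : ℤ) ^ 8 → N.natAbs.divisors.card ≤ M) :
    ∑ p ∈ box t, (extra t p).card ≤ 18362 * t ^ 7 * M := by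
  set Q : Finset (ℕ × ℕ × ℕ × ℕ × ℤ) := range t ×ˢ range t ×ˢ range (t ^ 2) ×ˢ range t ×ˢ
    Icc (-(4590 * (t : ℤ) ^ 2)) (4590 * (t : ℤ) ^ 2) with hQ
  set par : ℕ × ℕ × ℕ × ℕ × ℤ → ℕ → Par := fun c n => (c.1, c.2.1, c.2.2.1, c.2.2.2.1, n) with hpar
  set N : ℕ × ℕ × ℕ × ℕ × ℤ → ℤ := fun c =>
    c.2.2.2.2 * (c.2.2.2.2 + 4 * pa (par c 0) * pb (par c 0)) * (c.2.2.2.2 + pq (par c 0)) *
      (4 * pb (par c 0) ^ 2 - 4 * pb (par c 0) * pk (par c 0) - 4 * pa (par c 0) * pb (par c 0) -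
        pq (par c 0) - c.2.2.2.2) with hN
  set S : ℕ × ℕ × ℕ × ℕ × ℤ → Finset ℕ := fun c => (range (t ^ 2)).filter (fun n : ℕ => N c ≠ 0 ∧
    ∃ y : ℤ, y ^ 2 = (px (par c n) + c.2.2.2.2) ^ 3 + (F (par c n)).1 * (px (par c n) + c.2.2.2.2) +
      (F (par c n)).2) with hS
  have hcover : (box t).sigma (extra t) ⊆
      Q.biUnion (fun c => (S c).image (fun n => (⟨par c n, px (par c n) + c.2.2.2.2⟩ :
        Sigma fun _ : Par => ℤ))) := by
    rintro ⟨p, z⟩ hpz
    obtain ⟨hp, hz⟩ := mem_sigma.1 hpz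
    simp only at hp hz
    obtain ⟨hz1, hz2, hz3, hz4, hz5, y, hy⟩ := mem_filter.1 hz
    obtain ⟨_, _, _, _, hxb⟩ := bounds hp
    have hp' := hp
    simp only [box, mem_product, mem_range] at hp'
    obtain ⟨h1, h2, h3, h4, h5⟩ := hp'
    have hpp : par (p.1, p.2.1, p.2.2.1, p.2.2.2.1, z - px p) p.2.2.2.2 = p := rfl
    have hpa : ∀ n, pa (par (p.1, p.2.1, p.2.2.1, p.2.2.2.1, z - px p) n) = pa p := fun _ => rfl
    have hpb : ∀ n, pb (par (p.1, p.2.1, p.2.2.1, p.2.2.2.1, z - px p) n) = pb p := fun _ => rfl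
    have hpq : ∀ n, pq (par (p.1, p.2.1, p.2.2.1, p.2.2.2.1, z - px p) n) = pq p := fun _ => rfl
    have hpk : ∀ n, pk (par (p.1, p.2.1, p.2.2.1, p.2.2.2.1, z - px p) n) = pk p := fun _ => rfl
    rw [mem_biUnion]
    refine ⟨(p.1, p.2.1, p.2.2.1, p.2.2.2.1, z - px p), ?_, ?_⟩
    · simp only [hQ, mem_product, mem_range, mem_Icc]
      rw [mem_Icc] at hz1
      exact ⟨h1, h2, h3, h4, by linarith [hz1.1, hxb.2], by linarith [hz1.2, hxb.1]⟩
    · rw [mem_image]
      refine ⟨p.2.2.2.2, ?_, ?_⟩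
      · simp only [hS, mem_filter, mem_range]
        refine ⟨h5, ?_, y, ?_⟩
        · simp only [hN, hpa, hpb, hpq, hpk]
          refine mul_ne_zero (mul_ne_zero (mul_ne_zero ?_ ?_) ?_) ?_
          · exact sub_ne_zero.2 hz2
          · intro h
            apply hz3
            simp only [x2]; linarith
          · intro h
            apply hz4
            simp only [x3]; linarith
          · intro h
            apply hz5
            linarith
        · rw [hpp]
          rw [add_sub_cancel]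
          exact hy
      · rw [hpp]
        simp
  have hScard : ∀ c ∈ Q, (S c).card ≤ 2 * M := by
    intro c hc
    simp only [hQ, mem_product, mem_range, mem_Icc] at hc
    obtain ⟨h1, h2, h3, h4, h5, h6⟩ := hc
    by_cases h0 : N c = 0
    · have : S c = ∅ := by
        rw [hS]
        simp only
        rw [Finset.filter_eq_empty_iff]
        intro n _ h
        exact h.1 h0
      rw [this]; simp
    · have hp0 : par c 0 ∈ box t := by
        simp only [box, hpar, mem_product, mem_range]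
        exact ⟨h1, h2, h3, h4, by positivity⟩
      obtain ⟨ba, bb, bq, bk, bx⟩ := bounds hp0
      obtain ⟨g1, g2, g3, g4, g5, g6, g7⟩ := sizes (by positivity) ba bb bq bk bx
      have hle : (S c).card ≤ 2 * (N c).natAbs.divisors.card := by
        apply card_sq_add (N c) h0 (S c)
          (fun n => 2 * pb (par c n) ^ 2 * rr (pa (par c n)) (pb (par c n)) (pq (par c n))
            (px (par c n)) (pk (par c n)) + 2 * pb (par c n) * (pk (par c n) * c.2.2.2.2 -
            pa (par c n) * pq (par c n)) + (c.2.2.2.2 + 4 * pa (par c n) * pb (par c n)) *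
            (c.2.2.2.2 + pq (par c n)))
        · intro n n' h
          have e1 : ∀ n, pa (par c n) = pa (par c 0) := fun _ => rfl
          have e2 : ∀ n, pb (par c n) = pb (par c 0) := fun _ => rfl
          have e3 : ∀ n, pq (par c n) = pq (par c 0) := fun _ => rfl
          have e4 : ∀ n, pk (par c n) = pk (par c 0) := fun _ => rfl
          have e5 : ∀ n : ℕ, px (par c n) = 30 * n + 3 := fun _ => rfl
          simp only [e1 n, e1 n', e2 n, e2 n', e3 n, e3 n', e4 n, e4 n', e5, rr] at h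
          have hb0 : pb (par c 0) ^ 2 ≠ 0 := pow_ne_zero 2 bb.1.ne'
          have h7 : pb (par c 0) ^ 2 * ((n : ℤ) - n') = 0 := by linarith
          rcases mul_eq_zero.1 h7 with h8 | h8
          · exact absurd h8 hb0
          · have : (n : ℤ) = n' := by linarith
            exact_mod_cast this
        · intro n hn
          obtain ⟨_, _, y, hy⟩ := mem_filter.1 hn
          refine ⟨2 * pb (par c n) * y, ?_⟩
          have := cubic_shift (pa (par c n)) (pb (par c n)) (pq (par c n)) (px (par c n))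
            (pk (par c n)) c.2.2.2.2
          have h7 : (2 * pb (par c n) * y) ^ 2 = (2 * pb (par c n)) ^ 2 * (y ^ 2) := by ring
          rw [h7, hy]
          simp only [F]
          rw [this]
          rfl
      have hNle : |N c| ≤ 3000000000000000 * (t : ℤ) ^ 8 := by
        have a1 : |c.2.2.2.2| ≤ 4590 * (t : ℤ) ^ 2 := abs_le.2 ⟨h5, h6⟩
        have a2 : |c.2.2.2.2 + 4 * pa (par c 0) * pb (par c 0)| ≤ 8190 * (t : ℤ) ^ 2 := by
          refine (abs_add_le _ _).trans ?_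
          linarith
        have a3 : |c.2.2.2.2 + pq (par c 0)| ≤ 4620 * (t : ℤ) ^ 2 := by
          refine (abs_add_le _ _).trans ?_
          rw [abs_of_pos bq.1]
          linarith [bq.2]
        have a4 : |4 * pb (par c 0) ^ 2 - 4 * pb (par c 0) * pk (par c 0) -
            4 * pa (par c 0) * pb (par c 0) - pq (par c 0) - c.2.2.2.2| ≤ 15420 * (t : ℤ) ^ 2 := by
          refine (abs_sub _ _).trans ?_
          linarith
        have hn : |N c| = |c.2.2.2.2| * |c.2.2.2.2 + 4 * pa (par c 0) * pb (par c 0)| *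
            |c.2.2.2.2 + pq (par c 0)| * |4 * pb (par c 0) ^ 2 - 4 * pb (par c 0) * pk (par c 0) -
            4 * pa (par c 0) * pb (par c 0) - pq (par c 0) - c.2.2.2.2| := by
          simp only [hN, abs_mul]
        have hle2 : |N c| ≤ 4590 * (t : ℤ) ^ 2 * (8190 * (t : ℤ) ^ 2) * (4620 * (t : ℤ) ^ 2) *
            (15420 * (t : ℤ) ^ 2) := by
          rw [hn]
          exact mul_le_mul (mul_le_mul (mul_le_mul a1 a2 (abs_nonneg _) (by positivity)) a3
            (abs_nonneg _) (by positivity)) a4 (abs_nonneg _) (by positivity)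
        have e8 : 4590 * (t : ℤ) ^ 2 * (8190 * (t : ℤ) ^ 2) * (4620 * (t : ℤ) ^ 2) *
            (15420 * (t : ℤ) ^ 2) = 2678076240840000 * (t : ℤ) ^ 8 := by ring
        have e9 : (0 : ℤ) ≤ (t : ℤ) ^ 8 := by positivity
        linarith
      exact hle.trans (Nat.mul_le_mul_left _ (hM _ h0 hNle))
  have hQcard : Q.card ≤ 9181 * t ^ 7 := by
    simp only [hQ, card_product, card_range, Int.card_Icc]
    have : (4590 * (t : ℤ) ^ 2 + 1 - -(4590 * (t : ℤ) ^ 2)).toNat ≤ 9181 * t ^ 2 := by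
      rw [Int.toNat_le]
      push_cast
      have : (1 : ℤ) ≤ (t : ℤ) ^ 2 := by
        have : (1 : ℤ) ≤ t := by exact_mod_cast ht
        nlinarith
      linarith
    calc t * (t * (t ^ 2 * (t * (4590 * (t : ℤ) ^ 2 + 1 - -(4590 * (t : ℤ) ^ 2)).toNat)))
        ≤ t * (t * (t ^ 2 * (t * (9181 * t ^ 2)))) := by gcongr
      _ = 9181 * t ^ 7 := by ring
  calc ∑ p ∈ box t, (extra t p).card = ((box t).sigma (extra t)).card := by rw [card_sigma]
    _ ≤ ∑ c ∈ Q, (S c).card := (card_le_card hcover).trans (card_biUnion_le.trans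
      (Finset.sum_le_sum fun q _ => card_image_le))
    _ ≤ ∑ c ∈ Q, 2 * M := Finset.sum_le_sum hScard
    _ = Q.card * (2 * M) := by rw [Finset.sum_const, smul_eq_mul]
    _ ≤ 9181 * t ^ 7 * (2 * M) := Nat.mul_le_mul_right _ hQcard
    _ = 18362 * t ^ 7 * M := by ring


/-- The curve is not reduced. -/
def NonRed (t : ℕ) (p : Par) : Prop :=
  ∃ q : ℕ, q.Prime ∧ 7 ≤ q ∧ q ≤ 71 * t ∧ (q : ℤ) ^ 4 ∣ (F p).1

theorem card_nonRed (t : ℕ) :
    (((box t).filter (NonRed t)).card : ℝ) ≤ (t : ℝ) ^ 5 * ((t : ℝ) ^ 2 / 3 + 142 * t) := by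
  set Q : Finset (ℕ × ℕ × ℕ × ℕ) := range t ×ˢ range t ×ˢ range (t ^ 2) ×ˢ range t with hQ
  set par : ℕ × ℕ × ℕ × ℕ → ℕ → Par := fun c n => (c.1, c.2.1, c.2.2.1, c.2.2.2, n) with hpar
  set S : ℕ × ℕ × ℕ × ℕ → Finset ℕ := fun c => (range (t ^ 2)).filter (fun n : ℕ =>
    ∃ r : ℕ, r.Prime ∧ 7 ≤ r ∧ r ≤ 71 * t ∧ (r : ℤ) ^ 4 ∣ (F (par c n)).1) with hS
  have hcover : (box t).filter (NonRed t) ⊆
      Q.biUnion (fun c => (S c).image (fun n => par c n)) := by
    intro p hp
    obtain ⟨hp1, hd⟩ := mem_filter.1 hp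
    simp only [box, mem_product, mem_range] at hp1
    obtain ⟨h1, h2, h3, h4, h5⟩ := hp1
    rw [mem_biUnion]
    refine ⟨(p.1, p.2.1, p.2.2.1, p.2.2.2.1), ?_, ?_⟩
    · simp only [hQ, mem_product, mem_range]
      exact ⟨h1, h2, h3, h4⟩
    · rw [mem_image]
      refine ⟨p.2.2.2.2, ?_, rfl⟩
      simp only [hS, mem_filter, mem_range]
      exact ⟨h5, hd⟩
  have h1 : ((box t).filter (NonRed t)).card ≤ ∑ c ∈ Q, (S c).card :=
    (card_le_card hcover).trans (card_biUnion_le.trans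
      (Finset.sum_le_sum fun q _ => card_image_le))
  calc (((box t).filter (NonRed t)).card : ℝ) ≤ ((∑ c ∈ Q, (S c).card : ℕ) : ℝ) := by
        exact_mod_cast h1
    _ = ∑ c ∈ Q, ((S c).card : ℝ) := by push_cast; rfl
    _ ≤ ∑ c ∈ Q, (((t ^ 2 : ℕ) : ℝ) / 3 + 2 * ((71 * t : ℕ) : ℝ)) := by
        refine Finset.sum_le_sum fun c _ => ?_
        refine card_nonreduced (t ^ 2) (71 * t) (fun n => (F (par c n)).1)
          (6 - (2 * pk (par c 0) * pb (par c 0) + 4 * pa (par c 0) * pb (par c 0) +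
            pq (par c 0))) ?_
        intro n n'
        have := dA_sub (pa (par c 0)) (pb (par c 0)) (pq (par c 0)) (30 * n + 3) (30 * n' + 3)
          (pk (par c 0))
        have e : ∀ n, (F (par c n)).1 = dA (pa (par c 0)) (pb (par c 0)) (pq (par c 0))
          (30 * n + 3) (pk (par c 0)) := fun _ => rfl
        simp only [e]
        rw [this]
        ring
    _ = Q.card * (((t ^ 2 : ℕ) : ℝ) / 3 + 2 * ((71 * t : ℕ) : ℝ)) := by
        rw [Finset.sum_const, nsmul_eq_mul]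
    _ = (t : ℝ) ^ 5 * ((t : ℝ) ^ 2 / 3 + 142 * t) := by
        simp only [hQ, card_product, card_range]
        push_cast; ring

/-- The three points determine the parameters. -/
theorem inj_points {p p' : Par} (h1 : px p = px p')
    (h1' : y1 (pa p) (pb p) (pq p) (px p) (pk p) = y1 (pa p') (pb p') (pq p') (px p') (pk p'))
    (h2 : x2 (pa p) (pb p) (px p) = x2 (pa p') (pb p') (px p'))
    (h2' : pk p * x2 (pa p) (pb p) (px p) + mm (pa p) (pb p) (pq p) (px p) (pk p) =
      pk p' * x2 (pa p') (pb p') (px p') + mm (pa p') (pb p') (pq p') (px p') (pk p'))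
    (h3 : x3 (pq p) (px p) = x3 (pq p') (px p'))
    (h3' : pk p * x3 (pq p) (px p) + mm (pa p) (pb p) (pq p) (px p) (pk p) =
      pk p' * x3 (pq p') (px p') + mm (pa p') (pb p') (pq p') (px p') (pk p')) : p = p' := by
  have hq : pq p = pq p' := by
    simp only [x3] at h3
    linarith
  have hab : pa p * pb p = pa p' * pb p' := by
    simp only [x2] at h2
    linarith
  have hne : x2 (pa p') (pb p') (px p') - x3 (pq p') (px p') ≠ 0 := by
    simp only [x2, x3, pa, pb, pq]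
    intro h
    have : 3 * (4 * (10 * (p'.1 : ℤ) + 2) * (30 * p'.2.1 + 3) - 10 * p'.2.2.1 - 5) = 1 := by
      linarith
    omega
  have hk : pk p = pk p' := by
    have h4 : (pk p - pk p') * (x2 (pa p') (pb p') (px p') - x3 (pq p') (px p')) = 0 := by
      rw [h2] at h2'
      rw [h3] at h3'
      linarith
    rcases mul_eq_zero.1 h4 with h | h
    · linarith
    · exact absurd h hne
  have hm : mm (pa p) (pb p) (pq p) (px p) (pk p) = mm (pa p') (pb p') (pq p') (px p') (pk p') := by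
    have e : pk p * x2 (pa p) (pb p) (px p) = pk p' * x2 (pa p') (pb p') (px p') := by
      rw [hk, h2]
    linarith
  have ha : pa p = pa p' := by
    -- `y1 - (k x + m) = 2 a q`
    have e : ∀ a b q x k : ℤ, y1 a b q x k - (k * x + mm a b q x k) = 2 * a * q := by
      intro a b q x k
      simp only [y1, mm, rr]; ring
    have e1 := e (pa p) (pb p) (pq p) (px p) (pk p)
    have e2 := e (pa p') (pb p') (pq p') (px p') (pk p')
    rw [h1', hm, hk, h1, e2, hq] at e1
    have hq0 : pq p' ≠ 0 := by simp only [pq]; positivity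
    have : (pa p' - pa p) * pq p' = 0 := by linarith
    rcases mul_eq_zero.1 this with h | h
    · linarith
    · exact absurd h hq0
  have hb : pb p = pb p' := by
    rw [ha] at hab
    have ha0 : pa p' ≠ 0 := by simp only [pa]; positivity
    exact mul_left_cancel₀ ha0 hab
  simp only [pa, pb, pq, pk, px] at ha hb hq hk h1
  ext
  · omega
  · show p.2.1 = p'.2.1
    omega
  · show p.2.2.1 = p'.2.2.1
    omega
  · show p.2.2.2.1 = p'.2.2.2.1
    omega
  · show p.2.2.2.2 = p'.2.2.2.2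
    omega

theorem card_fiber (t : ℕ) {p₀ : Par} (_hp₀ : p₀ ∈ box t) :
    ((box t).filter (fun p => F p = F p₀)).card ≤ (2 * ((extra t p₀).card + 4)) ^ 3 := by
  set X : Finset ℤ := extra t p₀ ∪ {px p₀, x2 (pa p₀) (pb p₀) (px p₀), x3 (pq p₀) (px p₀),
    px p₀ + (4 * pb p₀ ^ 2 - 4 * pb p₀ * pk p₀ - 4 * pa p₀ * pb p₀ - pq p₀)} with hX
  have hXcard : X.card ≤ (extra t p₀).card + 4 :=
    (card_union_le _ _).trans (Nat.add_le_add_left (card_le_four) _)
  set g : ℤ → ℤ := fun z => Int.sqrt (z ^ 3 + (F p₀).1 * z + (F p₀).2) with hg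
  set Pts : Finset (ℤ × ℤ) := (X ×ˢ ({1, -1} : Finset ℤ)).image (fun zs => (zs.1, zs.2 * g zs.1))
    with hPts
  have hPtscard : Pts.card ≤ 2 * ((extra t p₀).card + 4) := by
    refine card_image_le.trans ?_
    rw [card_product]
    have : ({1, -1} : Finset ℤ).card = 2 := by decide
    rw [this]
    omega
  -- integral points are in `Pts`
  have hmem : ∀ z y : ℤ, |z| ≤ 4560 * (t : ℤ) ^ 2 → z ^ 3 + (F p₀).1 * z + (F p₀).2 = y ^ 2 →
      (z, y) ∈ Pts := by
    intro z y hz hy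
    have hzX : z ∈ X := by
      rw [hX, mem_union]
      by_cases h : z ∈ ({px p₀, x2 (pa p₀) (pb p₀) (px p₀), x3 (pq p₀) (px p₀),
        px p₀ + (4 * pb p₀ ^ 2 - 4 * pb p₀ * pk p₀ - 4 * pa p₀ * pb p₀ - pq p₀)} : Finset ℤ)
      · exact Or.inr h
      · left
        simp only [mem_insert, mem_singleton, not_or] at h
        rw [extra, mem_filter, mem_Icc]
        exact ⟨abs_le.1 hz, h.1, h.2.1, h.2.2.1, h.2.2.2, y, hy.symm⟩
    have hsq : g z = |y| := by
      rw [hg]
      simp only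
      rw [hy, sq, Int.sqrt_eq, Int.natCast_natAbs]
    rw [hPts, mem_image]
    rcases le_or_gt 0 y with h | h
    · refine ⟨(z, 1), mem_product.2 ⟨hzX, by simp⟩, ?_⟩
      simp only
      rw [hsq, abs_of_nonneg h, one_mul]
    · refine ⟨(z, -1), mem_product.2 ⟨hzX, by simp⟩, ?_⟩
      simp only
      rw [hsq, abs_of_neg h]
      simp
  calc ((box t).filter (fun p => F p = F p₀)).card ≤ (Pts ×ˢ Pts ×ˢ Pts).card := by
        apply card_le_card_of_injOn (fun p => ((px p, y1 (pa p) (pb p) (pq p) (px p) (pk p)),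
          (x2 (pa p) (pb p) (px p), pk p * x2 (pa p) (pb p) (px p) +
            mm (pa p) (pb p) (pq p) (px p) (pk p)),
          (x3 (pq p) (px p), pk p * x3 (pq p) (px p) + mm (pa p) (pb p) (pq p) (px p) (pk p))))
        · intro p hp
          obtain ⟨hp1, hp2⟩ := mem_filter.1 (mem_coe.1 hp)
          obtain ⟨ba, bb, bq, bk, bx⟩ := bounds hp1
          obtain ⟨g1, g2, g3, g4, g5, g6, g7⟩ := sizes (by positivity) ba bb bq bk bx
          have hT : (0 : ℤ) ≤ (t : ℤ) ^ 2 := by positivity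
          rw [mem_coe, mem_product, mem_product]
          refine ⟨hmem _ _ ?_ ?_, hmem _ _ ?_ ?_, hmem _ _ ?_ ?_⟩
          · rw [abs_of_pos bx.1]; linarith [bx.2]
          · rw [← hp2]
            exact cubic_one _ _ _ _ _
          · linarith
          · rw [← hp2]
            have := cubic_eq (pa p) (pb p) (pq p) (px p) (pk p) (x2 (pa p) (pb p) (px p))
            rw [sub_self, zero_mul, zero_mul, add_zero] at this
            exact this
          · linarith
          · rw [← hp2]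
            have := cubic_eq (pa p) (pb p) (pq p) (px p) (pk p) (x3 (pq p) (px p))
            rw [sub_self, mul_zero, zero_mul, add_zero] at this
            exact this
        · intro p _ p' _ h
          simp only [Prod.mk.injEq] at h
          exact inj_points h.1.1 h.1.2 h.2.1.1 h.2.1.2 h.2.2.1 h.2.2.2
    _ = Pts.card ^ 3 := by rw [card_product, card_product]; ring
    _ ≤ (2 * ((extra t p₀).card + 4)) ^ 3 := Nat.pow_le_pow_left hPtscard 3

/-- The main counting statement. -/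
theorem card_image (t : ℕ) (ht : 10000 ≤ t) (M : ℕ) (hM1 : 1 ≤ M) (hM : ∀ N : ℤ, N ≠ 0 →
    |N| ≤ 3000000000000000 * (t : ℤ) ^ 8 → N.natAbs.divisors.card ≤ M) :
    ∃ G : Finset Par, G ⊆ box t ∧ (∀ p ∈ G, ¬ NonRed t p) ∧
      t ^ 7 ≤ 3 * (2 * (73448 * M + 4)) ^ 3 * (G.image F).card := by
  set V := 73448 * M with hV
  set G := (box t).filter (fun p => ¬ NonRed t p ∧ (extra t p).card ≤ V) with hG
  refine ⟨G, filter_subset _ _, fun p hp => (mem_filter.1 hp).2.1, ?_⟩
  have hsum := sum_extra t (by omega) M hM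
  -- the parameters with many extra points
  have hbad : 4 * ((box t).filter (fun p => V < (extra t p).card)).card ≤ t ^ 7 := by
    have h1 : ((box t).filter (fun p => V < (extra t p).card)).card * V ≤ 18362 * t ^ 7 * M := by
      refine le_trans ?_ hsum
      rw [← smul_eq_mul, ← Finset.sum_const]
      calc ∑ p ∈ (box t).filter (fun p => V < (extra t p).card), V
          ≤ ∑ p ∈ (box t).filter (fun p => V < (extra t p).card), (extra t p).card :=
            Finset.sum_le_sum fun p hp => (mem_filter.1 hp).2.le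
        _ ≤ ∑ p ∈ box t, (extra t p).card :=
            Finset.sum_le_sum_of_subset (filter_subset _ _)
    have h2 : (4 * ((box t).filter (fun p => V < (extra t p).card)).card) * (18362 * M) ≤
        t ^ 7 * (18362 * M) := by
      calc (4 * ((box t).filter (fun p => V < (extra t p).card)).card) * (18362 * M)
          = ((box t).filter (fun p => V < (extra t p).card)).card * V := by rw [hV]; ring
        _ ≤ 18362 * t ^ 7 * M := h1
        _ = t ^ 7 * (18362 * M) := by ring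
    exact Nat.le_of_mul_le_mul_right h2 (by omega)
  have hnr := card_nonRed t
  have ht' : (10000 : ℝ) ≤ t := by exact_mod_cast ht
  have hnr' : (((box t).filter (NonRed t)).card : ℝ) ≤ (t : ℝ) ^ 7 * (2 / 5) := by
    refine hnr.trans ?_
    have h1 : (142 : ℝ) * t ≤ (t : ℝ) ^ 2 / 15 := by nlinarith
    have h2 : (0 : ℝ) ≤ (t : ℝ) ^ 5 := by positivity
    nlinarith
  have hGcard : t ^ 7 ≤ 3 * G.card := by
    have hcov : box t ⊆ G ∪ ((box t).filter (NonRed t) ∪
        (box t).filter (fun p => V < (extra t p).card)) := by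
      intro p hp
      by_cases h1 : NonRed t p
      · exact mem_union_right _ (mem_union_left _ (mem_filter.2 ⟨hp, h1⟩))
      · by_cases h2 : (extra t p).card ≤ V
        · exact mem_union_left _ (mem_filter.2 ⟨hp, h1, h2⟩)
        · exact mem_union_right _ (mem_union_right _ (mem_filter.2 ⟨hp, not_le.1 h2⟩))
    have h3 := (card_le_card hcov).trans ((card_union_le _ _).trans
      (Nat.add_le_add_left (card_union_le _ _) _))
    rw [card_box] at h3
    have h3' : (t : ℝ) ^ 7 ≤ G.card + (((box t).filter (NonRed t)).card +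
        ((box t).filter (fun p => V < (extra t p).card)).card) := by exact_mod_cast h3
    have h4 : 4 * (((box t).filter (fun p => V < (extra t p).card)).card : ℝ) ≤ (t : ℝ) ^ 7 := by
      exact_mod_cast hbad
    have h5 : (t : ℝ) ^ 7 ≤ 3 * G.card := by
      have h6 : (0 : ℝ) ≤ (t : ℝ) ^ 7 := by positivity
      linarith
    exact_mod_cast h5
  have hfib : G.card ≤ (2 * (V + 4)) ^ 3 * (G.image F).card := by
    apply card_le_mul_card_image
    intro v hv
    obtain ⟨p₀, hp₀, rfl⟩ := mem_image.1 hv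
    have hp₀' := mem_filter.1 hp₀
    calc (G.filter (fun p => F p = F p₀)).card ≤ ((box t).filter (fun p => F p = F p₀)).card :=
          card_le_card (filter_subset_filter _ (filter_subset _ _))
      _ ≤ (2 * ((extra t p₀).card + 4)) ^ 3 := card_fiber t hp₀'.1
      _ ≤ (2 * (V + 4)) ^ 3 := by
          apply Nat.pow_le_pow_left
          have := hp₀'.2.2
          omega
  calc t ^ 7 ≤ 3 * G.card := hGcard
    _ ≤ 3 * ((2 * (V + 4)) ^ 3 * (G.image F).card) := Nat.mul_le_mul_left _ hfib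
    _ = 3 * (2 * (V + 4)) ^ 3 * (G.image F).card := by ring

end Pool.Agent.H70.Three
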