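import Mathlib
import Pool.Agent.H70.Rank

set_option autoImplicit false

/-!
# The orderings of the elliptic curves over the rationals

Definitions used in the statements about the number of curves of rank at least two and three.
-/

namespace Pool.Agent.H70

open Finset

/-- The elliptic curve `y² = x³ + A x + B` for `p = (A, B)`. -/
def ell (p : ℤ × ℤ) : WeierstrassCurve ℚ := ⟨0, 0, 0, p.1, p.2⟩

/-- The pair `(A, B)` is nonsingular and there is no prime `q` with `q ^ 4 ∣ A` and `q ^ 6 ∣ B`. -/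
def IsReduced (p : ℤ × ℤ) : Prop :=
  4 * p.1 ^ 3 + 27 * p.2 ^ 2 ≠ 0 ∧ ∀ q : ℕ, q.Prime → ¬ ((q : ℤ) ^ 4 ∣ p.1 ∧ (q : ℤ) ^ 6 ∣ p.2)

/-- The naive height `max (4 |A| ^ 3) (27 B ^ 2)`. -/
def height (p : ℤ × ℤ) : ℝ := ((max (4 * |p.1| ^ 3) (27 * p.2 ^ 2) : ℤ) : ℝ)

/-- The absolute value of the minimal discriminant: the least `|Δ|` of a Weierstrass equation with
integral coefficients which is isomorphic to the curve over `ℚ`. -/
noncomputable def minDisc (p : ℤ × ℤ) : ℕ :=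
  sInf {n : ℕ | ∃ (V : WeierstrassCurve ℤ) (C : WeierstrassCurve.VariableChange ℚ),
    C • ell p = V.map (Int.castRingHom ℚ) ∧ n = V.Δ.natAbs}

/-- The rank of the group of rational points. -/
noncomputable def rank (p : ℤ × ℤ) : Cardinal := Module.rank ℤ (ell p).toAffine.Point

/-- The proportion of the curves of naive height at most `X` with a property `P`. -/
noncomputable def proportion (P : ℤ × ℤ → Prop) (X : ℝ) : ℝ :=
  ((Set.ncard {p : ℤ × ℤ | IsReduced p ∧ height p ≤ X ∧ P p} : ℕ) : ℝ) /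
    ((Set.ncard {p : ℤ × ℤ | IsReduced p ∧ height p ≤ X} : ℕ) : ℝ)

theorem minDisc_le (p : ℤ × ℤ) : minDisc p ≤ (16 * (4 * p.1 ^ 3 + 27 * p.2 ^ 2)).natAbs := by
  apply Nat.sInf_le
  refine ⟨⟨0, 0, 0, p.1, p.2⟩, 1, ?_, ?_⟩
  · rw [one_smul]
    simp [ell, WeierstrassCurve.map]
  · have : (⟨0, 0, 0, p.1, p.2⟩ : WeierstrassCurve ℤ).Δ = -(16 * (4 * p.1 ^ 3 + 27 * p.2 ^ 2)) := by
      simp [WeierstrassCurve.Δ, WeierstrassCurve.b₂, WeierstrassCurve.b₄, WeierstrassCurve.b₆,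
        WeierstrassCurve.b₈]
      ring
    rw [this, Int.natAbs_neg]

/-- A bound for the minimal discriminant. -/
theorem minDisc_le_real (p : ℤ × ℤ) (a b : ℤ) (ha : |p.1| ≤ a) (hb : |p.2| ≤ b) :
    (minDisc p : ℝ) ≤ 16 * (4 * (a : ℝ) ^ 3 + 27 * (b : ℝ) ^ 2) := by
  have h1 : ((minDisc p : ℕ) : ℤ) ≤ |16 * (4 * p.1 ^ 3 + 27 * p.2 ^ 2)| := by
    have := minDisc_le p
    rw [← Int.natCast_natAbs]
    exact_mod_cast this
  have h2 : |16 * (4 * p.1 ^ 3 + 27 * p.2 ^ 2)| ≤ 16 * (4 * a ^ 3 + 27 * b ^ 2) := by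
    rw [abs_mul, abs_of_pos (by norm_num : (0 : ℤ) < 16)]
    apply mul_le_mul_of_nonneg_left _ (by norm_num)
    refine (abs_add_le _ _).trans ?_
    rw [abs_mul, abs_mul, abs_pow, abs_pow, abs_of_pos (by norm_num : (0 : ℤ) < 4),
      abs_of_pos (by norm_num : (0 : ℤ) < 27)]
    have e1 : |p.1| ^ 3 ≤ a ^ 3 := pow_le_pow_left₀ (abs_nonneg _) ha 3
    have e2 : |p.2| ^ 2 ≤ b ^ 2 := pow_le_pow_left₀ (abs_nonneg _) hb 2
    linarith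
  exact_mod_cast h1.trans h2

theorem height_le_real (p : ℤ × ℤ) (a b : ℤ) (ha : |p.1| ≤ a) (hb : |p.2| ≤ b) :
    height p ≤ 4 * (a : ℝ) ^ 3 + 27 * (b : ℝ) ^ 2 := by
  have e1 : |p.1| ^ 3 ≤ a ^ 3 := pow_le_pow_left₀ (abs_nonneg _) ha 3
  have e2 : p.2 ^ 2 ≤ b ^ 2 := by
    rw [← sq_abs p.2]
    exact pow_le_pow_left₀ (abs_nonneg _) hb 2
  have h0 : (0 : ℤ) ≤ a ^ 3 := le_trans (pow_nonneg (abs_nonneg _) 3) e1
  have h1 : (0 : ℤ) ≤ b ^ 2 := by positivity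
  have : max (4 * |p.1| ^ 3) (27 * p.2 ^ 2) ≤ 4 * a ^ 3 + 27 * b ^ 2 := by
    apply max_le <;> linarith
  rw [height]
  exact_mod_cast this

/-- The curves of bounded height lie in a box. -/
theorem abs_le_of_height (p : ℤ × ℤ) (X : ℝ) (hX : 0 ≤ X) (h : height p ≤ X) :
    |p.1| ≤ ⌊X ^ ((1 : ℝ) / 3)⌋ ∧ |p.2| ≤ ⌊X ^ ((1 : ℝ) / 2)⌋ := by
  have h1 : ((4 * |p.1| ^ 3 : ℤ) : ℝ) ≤ X := le_trans (Int.cast_le.2 (le_max_left _ _)) h
  have h2 : ((27 * p.2 ^ 2 : ℤ) : ℝ) ≤ X := le_trans (Int.cast_le.2 (le_max_right _ _)) h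
  push_cast at h1 h2
  constructor
  · rw [Int.le_floor]
    push_cast
    have h3 : (|(p.1 : ℝ)|) ^ (3 : ℕ) ≤ X := by
      have : (0 : ℝ) ≤ |(p.1 : ℝ)| ^ 3 := by positivity
      linarith
    calc |(p.1 : ℝ)| = (|(p.1 : ℝ)| ^ (3 : ℕ)) ^ ((1 : ℝ) / 3) := by
          rw [← Real.rpow_natCast, ← Real.rpow_mul (abs_nonneg _)]
          norm_num
      _ ≤ X ^ ((1 : ℝ) / 3) := Real.rpow_le_rpow (by positivity) h3 (by norm_num)
  · rw [Int.le_floor]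
    push_cast
    have h3 : (|(p.2 : ℝ)|) ^ (2 : ℕ) ≤ X := by
      rw [sq_abs]
      have : (0 : ℝ) ≤ (p.2 : ℝ) ^ 2 := by positivity
      linarith
    calc |(p.2 : ℝ)| = (|(p.2 : ℝ)| ^ (2 : ℕ)) ^ ((1 : ℝ) / 2) := by
          rw [← Real.rpow_natCast, ← Real.rpow_mul (abs_nonneg _)]
          norm_num
      _ ≤ X ^ ((1 : ℝ) / 2) := Real.rpow_le_rpow (by positivity) h3 (by norm_num)

theorem finite_height (X : ℝ) (hX : 0 ≤ X) : {p : ℤ × ℤ | IsReduced p ∧ height p ≤ X}.Finite := by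
  apply Set.Finite.subset (Set.Finite.prod (Set.finite_Icc (-⌊X ^ ((1 : ℝ) / 3)⌋) ⌊X ^ ((1 : ℝ) / 3)⌋)
    (Set.finite_Icc (-⌊X ^ ((1 : ℝ) / 2)⌋) ⌊X ^ ((1 : ℝ) / 2)⌋))
  rintro p ⟨_, hp⟩
  obtain ⟨h1, h2⟩ := abs_le_of_height p X hX hp
  rw [Set.mem_prod, Set.mem_Icc, Set.mem_Icc]
  exact ⟨abs_le.1 h1, abs_le.1 h2⟩

/-- There are at most `9 X ^ (5 / 6)` curves of height at most `X`. -/
theorem ncard_height_le (X : ℝ) (hX : 1 ≤ X) :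
    ((Set.ncard {p : ℤ × ℤ | IsReduced p ∧ height p ≤ X} : ℕ) : ℝ) ≤ 9 * X ^ ((5 : ℝ) / 6) := by
  have hX0 : 0 ≤ X := by linarith
  set a := ⌊X ^ ((1 : ℝ) / 3)⌋ with ha
  set b := ⌊X ^ ((1 : ℝ) / 2)⌋ with hb
  have hsub : {p : ℤ × ℤ | IsReduced p ∧ height p ≤ X} ⊆
      ((Icc (-a) a ×ˢ Icc (-b) b : Finset (ℤ × ℤ)) : Set (ℤ × ℤ)) := by
    rintro p ⟨_, hp⟩
    obtain ⟨h1, h2⟩ := abs_le_of_height p X hX0 hp
    rw [Finset.mem_coe, Finset.mem_product, Finset.mem_Icc, Finset.mem_Icc]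
    exact ⟨abs_le.1 h1, abs_le.1 h2⟩
  have h1 : Set.ncard {p : ℤ × ℤ | IsReduced p ∧ height p ≤ X} ≤
      (Icc (-a) a ×ˢ Icc (-b) b : Finset (ℤ × ℤ)).card := by
    rw [← Set.ncard_coe_finset]
    exact Set.ncard_le_ncard hsub (Finset.finite_toSet _)
  have ha1 : 1 ≤ a := by
    rw [ha, Int.le_floor]
    push_cast
    exact Real.one_le_rpow hX (by norm_num)
  have hb1 : 1 ≤ b := by
    rw [hb, Int.le_floor]
    push_cast
    exact Real.one_le_rpow hX (by norm_num)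
  have h2 : ((Icc (-a) a ×ˢ Icc (-b) b : Finset (ℤ × ℤ)).card : ℝ) = (2 * a + 1) * (2 * b + 1) := by
    rw [Finset.card_product, Int.card_Icc, Int.card_Icc]
    have e1 : (((a + 1 - -a).toNat : ℕ) : ℤ) = 2 * a + 1 := by
      rw [Int.toNat_of_nonneg (by linarith)]; ring
    have e2 : (((b + 1 - -b).toNat : ℕ) : ℤ) = 2 * b + 1 := by
      rw [Int.toNat_of_nonneg (by linarith)]; ring
    have e1' : (((a + 1 - -a).toNat : ℕ) : ℝ) = 2 * a + 1 := by exact_mod_cast e1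
    have e2' : (((b + 1 - -b).toNat : ℕ) : ℝ) = 2 * b + 1 := by exact_mod_cast e2
    rw [Nat.cast_mul, e1', e2']
  have h3 : (a : ℝ) ≤ X ^ ((1 : ℝ) / 3) := Int.floor_le _
  have h4 : (b : ℝ) ≤ X ^ ((1 : ℝ) / 2) := Int.floor_le _
  have ha1' : (1 : ℝ) ≤ a := by exact_mod_cast ha1
  have hb1' : (1 : ℝ) ≤ b := by exact_mod_cast hb1
  calc ((Set.ncard {p : ℤ × ℤ | IsReduced p ∧ height p ≤ X} : ℕ) : ℝ)
      ≤ ((Icc (-a) a ×ˢ Icc (-b) b : Finset (ℤ × ℤ)).card : ℝ) := by exact_mod_cast h1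
    _ = (2 * a + 1) * (2 * b + 1) := h2
    _ ≤ (3 * a) * (3 * b) := by
        apply mul_le_mul <;> linarith
    _ ≤ (3 * X ^ ((1 : ℝ) / 3)) * (3 * X ^ ((1 : ℝ) / 2)) := by
        apply mul_le_mul <;> linarith
    _ = 9 * X ^ ((5 : ℝ) / 6) := by
        have : X ^ ((5 : ℝ) / 6) = X ^ ((1 : ℝ) / 3) * X ^ ((1 : ℝ) / 2) := by
          rw [← Real.rpow_add (by linarith)]
          norm_num
        rw [this]; ring

/-- The integer parameter `t` for a given bound `X`. -/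
theorem exists_param (K : ℝ) (hK : 0 < K) (t₀ : ℕ) : ∃ X₀ : ℝ, 1 ≤ X₀ ∧ ∀ X ≥ X₀, ∃ t : ℕ,
    t₀ ≤ t ∧ 1 ≤ t ∧ K * (t : ℝ) ^ 12 ≤ X ∧ (X / K) ^ ((1 : ℝ) / 12) / 2 ≤ t := by
  refine ⟨max 1 (K * (t₀ + 1) ^ 12), le_max_left _ _, fun X hX => ?_⟩
  have hX1 : K * ((t₀ : ℝ) + 1) ^ 12 ≤ X := (le_max_right _ _).trans hX
  have hXK : ((t₀ : ℝ) + 1) ^ (12 : ℕ) ≤ X / K := by
    rw [le_div_iff₀ hK]; linarith
  have hXK0 : 0 ≤ X / K := le_trans (by positivity) hXK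
  have hroot : (t₀ : ℝ) + 1 ≤ (X / K) ^ ((1 : ℝ) / 12) := by
    calc (t₀ : ℝ) + 1 = (((t₀ : ℝ) + 1) ^ (12 : ℕ)) ^ ((1 : ℝ) / 12) := by
          rw [← Real.rpow_natCast, ← Real.rpow_mul (by positivity)]
          norm_num
      _ ≤ _ := Real.rpow_le_rpow (by positivity) hXK (by norm_num)
  refine ⟨⌊(X / K) ^ ((1 : ℝ) / 12)⌋₊, ?_, ?_, ?_, ?_⟩
  · rw [Nat.le_floor_iff (by positivity)]
    linarith
  · rw [Nat.le_floor_iff (by positivity)]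
    push_cast
    have : (0 : ℝ) ≤ t₀ := by positivity
    linarith
  · have h1 : ((⌊(X / K) ^ ((1 : ℝ) / 12)⌋₊ : ℕ) : ℝ) ≤ (X / K) ^ ((1 : ℝ) / 12) :=
      Nat.floor_le (by positivity)
    have h2 : ((⌊(X / K) ^ ((1 : ℝ) / 12)⌋₊ : ℕ) : ℝ) ^ (12 : ℕ) ≤ X / K := by
      calc ((⌊(X / K) ^ ((1 : ℝ) / 12)⌋₊ : ℕ) : ℝ) ^ (12 : ℕ)
          ≤ ((X / K) ^ ((1 : ℝ) / 12)) ^ (12 : ℕ) := pow_le_pow_left₀ (by positivity) h1 12
        _ = X / K := by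
          rw [← Real.rpow_natCast, ← Real.rpow_mul hXK0]
          norm_num
    rw [le_div_iff₀ hK] at h2
    linarith
  · have h1 := Nat.lt_floor_add_one ((X / K) ^ ((1 : ℝ) / 12))
    have h2 : (1 : ℝ) ≤ (X / K) ^ ((1 : ℝ) / 12) := by
      have : (0 : ℝ) ≤ t₀ := by positivity
      linarith
    have h3 : (1 : ℝ) ≤ ((⌊(X / K) ^ ((1 : ℝ) / 12)⌋₊ : ℕ) : ℝ) := by
      have : 1 ≤ ⌊(X / K) ^ ((1 : ℝ) / 12)⌋₊ := by
        rw [Nat.le_floor_iff (by positivity)]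
        exact_mod_cast h2
      exact_mod_cast this
    linarith

end Pool.Agent.H70
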