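import Mathlib
import Pool.Agent.H70.DivBound
import Pool.Agent.H70.Rank
import Pool.Agent.H70.Count

set_option autoImplicit false

namespace Pool.Agent.H70.Two

open Finset Classical

/-- The coefficients of the curve with the parameters `i`, `j`, `l`, `n`. -/
def F (p : ℕ × ℕ × ℕ × ℕ) : ℤ × ℤ :=
  (cA (6 * p.1 + 3) (6 * p.2.1 + 1) (6 * p.2.2.1) (6 * p.2.2.2 + 3),
   cB (6 * p.1 + 3) (6 * p.2.1 + 1) (6 * p.2.2.1) (6 * p.2.2.2 + 3))

/-- The third abscissa. -/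
def cc (i j l : ℕ) : ℤ := (6 * (l : ℤ)) ^ 2 - (6 * i + 3) - (6 * j + 1)

def box (t : ℕ) : Finset (ℕ × ℕ × ℕ × ℕ) :=
  range (t ^ 2) ×ˢ range (t ^ 2) ×ˢ range t ×ˢ range (t ^ 3)

theorem card_box (t : ℕ) : (box t).card = t ^ 8 := by
  simp only [box, card_product, card_range]
  ring

/-- There is a further integral point with small abscissa. -/
def Extra (t : ℕ) (p : ℕ × ℕ × ℕ × ℕ) : Prop :=
  ∃ x y : ℤ, |x| ≤ 36 * (t : ℤ) ^ 2 ∧ x ≠ 6 * p.1 + 3 ∧ x ≠ 6 * p.2.1 + 1 ∧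
    x ≠ cc p.1 p.2.1 p.2.2.1 ∧ y ^ 2 = x ^ 3 + (F p).1 * x + (F p).2

/-- The curve is not reduced. -/
def NonRed (t : ℕ) (p : ℕ × ℕ × ℕ × ℕ) : Prop :=
  ∃ q : ℕ, q.Prime ∧ 5 ≤ q ∧ q ≤ 4 * t ∧ (q : ℤ) ^ 6 ∣ (F p).2

theorem mem_box {t : ℕ} {p : ℕ × ℕ × ℕ × ℕ} (hp : p ∈ box t) :
    p.1 < t ^ 2 ∧ p.2.1 < t ^ 2 ∧ p.2.2.1 < t ∧ p.2.2.2 < t ^ 3 := by
  simpa [box] using hp

theorem cc_bounds {t : ℕ} {p : ℕ × ℕ × ℕ × ℕ} (hp : p ∈ box t) :
    |cc p.1 p.2.1 p.2.2.1| ≤ 36 * (t : ℤ) ^ 2 := by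
  obtain ⟨h1, h2, h3, _⟩ := mem_box hp
  have h1' : (p.1 : ℤ) + 1 ≤ (t : ℤ) ^ 2 := by exact_mod_cast h1
  have h2' : (p.2.1 : ℤ) + 1 ≤ (t : ℤ) ^ 2 := by exact_mod_cast h2
  have h3' : (p.2.2.1 : ℤ) ≤ t := by exact_mod_cast h3.le
  have h4 : (p.2.2.1 : ℤ) ^ 2 ≤ (t : ℤ) ^ 2 := pow_le_pow_left₀ (by positivity) h3' 2
  have h5 : (0 : ℤ) ≤ p.1 := by positivity
  have h6 : (0 : ℤ) ≤ p.2.1 := by positivity
  have h7 : (0 : ℤ) ≤ (p.2.2.1 : ℤ) ^ 2 := by positivity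
  rw [abs_le, cc]
  constructor <;> nlinarith

theorem F_eq (p : ℕ × ℕ × ℕ × ℕ) (x : ℤ) : x ^ 3 + (F p).1 * x + (F p).2 =
    (6 * p.2.2.1 * x + (6 * p.2.2.2 + 3)) ^ 2 +
      (x - (6 * p.1 + 3)) * (x - (6 * p.2.1 + 1)) * (x - cc p.1 p.2.1 p.2.2.1) := by
  have := cubic_eq (6 * p.1 + 3) (6 * p.2.1 + 1) (6 * p.2.2.1) (6 * p.2.2.2 + 3) x
  simp only [F, cc]
  exact this

theorem injOn (t : ℕ) {p p' : ℕ × ℕ × ℕ × ℕ} (hp' : p' ∈ box t)
    (hE : ¬ Extra t p) (hF : F p = F p') : p = p' := by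
  -- all small integral points on the curve of `p'` are among those of `p`
  have key : ∀ x y : ℤ, |x| ≤ 36 * (t : ℤ) ^ 2 → y ^ 2 = x ^ 3 + (F p').1 * x + (F p').2 →
      x = 6 * p.1 + 3 ∨ x = 6 * p.2.1 + 1 ∨ x = cc p.1 p.2.1 p.2.2.1 := by
    intro x y hx hy
    by_contra hcon
    push Not at hcon
    apply hE
    refine ⟨x, y, hx, hcon.1, hcon.2.1, hcon.2.2, ?_⟩
    rw [hF]; exact hy
  obtain ⟨h1, h2, h3, h4⟩ := mem_box hp'
  have h1' : (p'.1 : ℤ) + 1 ≤ (t : ℤ) ^ 2 := by exact_mod_cast h1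
  have h2' : (p'.2.1 : ℤ) + 1 ≤ (t : ℤ) ^ 2 := by exact_mod_cast h2
  have hmod : ∀ i j l : ℕ, cc i j l % 3 = 2 := by
    intro i j l
    have : cc i j l = 3 * (12 * (l : ℤ) ^ 2 - 2 * i - 2 * j - 2) + 2 := by
      simp only [cc]; ring
    omega
  have k1 := key (6 * p'.1 + 3) (6 * p'.2.2.1 * (6 * p'.1 + 3) + (6 * p'.2.2.2 + 3)) (by
    rw [abs_le]; constructor <;> linarith) (by rw [F_eq]; ring)
  have k2 := key (6 * p'.2.1 + 1) (6 * p'.2.2.1 * (6 * p'.2.1 + 1) + (6 * p'.2.2.2 + 3)) (by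
    rw [abs_le]; constructor <;> linarith) (by rw [F_eq]; ring)
  have k3 := key (cc p'.1 p'.2.1 p'.2.2.1)
    (6 * p'.2.2.1 * cc p'.1 p'.2.1 p'.2.2.1 + (6 * p'.2.2.2 + 3)) (cc_bounds hp')
    (by rw [F_eq]; ring)
  have m1 := hmod p.1 p.2.1 p.2.2.1
  have m2 := hmod p'.1 p'.2.1 p'.2.2.1
  have e1 : p.1 = p'.1 := by omega
  have e2 : p.2.1 = p'.2.1 := by omega
  have e3 : cc p.1 p.2.1 p.2.2.1 = cc p'.1 p'.2.1 p'.2.2.1 := by
    rcases k3 with h | h | h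
    · omega
    · omega
    · exact h.symm
  have e4 : p.2.2.1 = p'.2.2.1 := by
    rw [e1, e2] at e3
    simp only [cc] at e3
    have h5 : (6 * (p.2.2.1 : ℤ)) ^ 2 = (6 * (p'.2.2.1 : ℤ)) ^ 2 := by linarith
    have h6 : (6 * (p.2.2.1 : ℤ)) = 6 * (p'.2.2.1 : ℤ) :=
      (pow_left_inj₀ (by positivity) (by positivity) two_ne_zero).1 h5
    omega
  have e5 : p.2.2.2 = p'.2.2.2 := by
    have h5 := F_eq p (6 * p.1 + 3)
    have h6 := F_eq p' (6 * p'.1 + 3)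
    rw [hF, e1, h6] at h5
    have h7 : (6 * (p'.2.2.1 : ℤ) * (6 * p'.1 + 3) + (6 * p'.2.2.2 + 3)) ^ 2 =
        (6 * (p.2.2.1 : ℤ) * (6 * p'.1 + 3) + (6 * p.2.2.2 + 3)) ^ 2 := by
      linear_combination h5
    rw [e4] at h7
    have h8 := (pow_left_inj₀ (by positivity) (by positivity) two_ne_zero).1 h7
    omega
  ext
  · exact e1
  · exact e2
  · exact e4
  · exact e5

/-- The number of parameters with a further integral point. -/
theorem card_extra : ∃ t₀ : ℕ, ∀ t ≥ t₀, 4 * ((box t).filter (Extra t)).card ≤ t ^ 8 := by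
  obtain ⟨C, hC, hdiv⟩ := card_divisors_pow_le 8
  refine ⟨C * 200000 * 584 ^ 8 + 1, fun t ht => ?_⟩
  have ht1 : 1 ≤ t := by omega
  -- index set
  set Q : Finset (ℕ × ℕ × ℕ × ℤ) := range (t ^ 2) ×ˢ range (t ^ 2) ×ˢ range t ×ˢ
    Icc (-(36 * (t : ℤ) ^ 2)) (36 * (t : ℤ) ^ 2) with hQ
  set N : ℕ × ℕ × ℕ × ℤ → ℤ := fun q =>
    (q.2.2.2 - (6 * q.1 + 3)) * (q.2.2.2 - (6 * q.2.1 + 1)) * (q.2.2.2 - cc q.1 q.2.1 q.2.2.1)
    with hN
  set S : ℕ × ℕ × ℕ × ℤ → Finset ℕ := fun q => (range (t ^ 3)).filter (fun n : ℕ => N q ≠ 0 ∧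
    ∃ y : ℤ, y ^ 2 = (6 * q.2.2.1 * q.2.2.2 + (6 * (n : ℤ) + 3)) ^ 2 + N q) with hS
  have hcover : (box t).filter (Extra t) ⊆
      Q.biUnion (fun q => (S q).image (fun n => (q.1, q.2.1, q.2.2.1, n))) := by
    intro p hp
    obtain ⟨hp1, x, y, hx, hx1, hx2, hx3, hy⟩ := mem_filter.1 hp
    obtain ⟨h1, h2, h3, h4⟩ := mem_box hp1
    rw [mem_biUnion]
    refine ⟨(p.1, p.2.1, p.2.2.1, x), ?_, ?_⟩
    · simp only [hQ, mem_product, mem_range, mem_Icc]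
      exact ⟨h1, h2, h3, (abs_le.1 hx).1, (abs_le.1 hx).2⟩
    · rw [mem_image]
      refine ⟨p.2.2.2, ?_, rfl⟩
      simp only [hS, hN, mem_filter, mem_range]
      refine ⟨h4, ?_, y, ?_⟩
      · exact mul_ne_zero (mul_ne_zero (sub_ne_zero.2 hx1) (sub_ne_zero.2 hx2))
          (sub_ne_zero.2 hx3)
      · rw [hy, F_eq]
  have hScard : ∀ q ∈ Q, 584 * (S q).card ≤ 2 * t := by
    intro q hq
    by_cases h0 : N q = 0
    · have : S q = ∅ := by
        rw [hS]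
        simp only
        rw [Finset.filter_eq_empty_iff]
        intro n _ h
        exact h.1 h0
      rw [this]; simp
    · have h1 : (S q).card ≤ 2 * (N q).natAbs.divisors.card := by
        apply card_sq_add (N q) h0 (S q)
          (fun n => 6 * q.2.2.1 * q.2.2.2 + (6 * (n : ℤ) + 3))
        · intro n n' h
          simp only at h
          omega
        · intro n hn
          exact (mem_filter.1 hn).2.2
      have h2 := hdiv (N q).natAbs (by simpa using h0)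
      have h3 : (N q).natAbs ≤ 127008 * t ^ 6 := by
        simp only [hQ, mem_product, mem_range, mem_Icc] at hq
        obtain ⟨g1, g2, g3, g4, g5⟩ := hq
        have hb : (q.1, q.2.1, q.2.2.1, 0) ∈ box t := by
          simp only [box, mem_product, mem_range]
          exact ⟨g1, g2, g3, by positivity⟩
        have g6 := cc_bounds hb
        simp only at g6
        have g1' : (q.1 : ℤ) + 1 ≤ (t : ℤ) ^ 2 := by exact_mod_cast g1
        have g2' : (q.2.1 : ℤ) + 1 ≤ (t : ℤ) ^ 2 := by exact_mod_cast g2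
        have a1 : |q.2.2.2 - (6 * (q.1 : ℤ) + 3)| ≤ 42 * (t : ℤ) ^ 2 := by
          rw [abs_le]; constructor <;> linarith
        have a2 : |q.2.2.2 - (6 * (q.2.1 : ℤ) + 1)| ≤ 42 * (t : ℤ) ^ 2 := by
          rw [abs_le]; constructor <;> linarith
        have a3 : |q.2.2.2 - cc q.1 q.2.1 q.2.2.1| ≤ 72 * (t : ℤ) ^ 2 := by
          rw [abs_le] at g6 ⊢; constructor <;> linarith
        have : |N q| ≤ 42 * (t : ℤ) ^ 2 * (42 * (t : ℤ) ^ 2) * (72 * (t : ℤ) ^ 2) := by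
          simp only [hN, abs_mul]
          gcongr
        have h4 : ((N q).natAbs : ℤ) ≤ ((127008 * t ^ 6 : ℕ) : ℤ) := by
          rw [Int.natCast_natAbs]
          push_cast
          refine this.trans (le_of_eq ?_)
          ring
        exact_mod_cast h4
      set M := (N q).natAbs.divisors.card
      have h4 : (584 * M) ^ 8 ≤ t ^ 8 := by
        calc (584 * M) ^ 8 = 584 ^ 8 * M ^ 8 := by ring
          _ ≤ 584 ^ 8 * (C * (127008 * t ^ 6)) :=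
            Nat.mul_le_mul_left _ (h2.trans (Nat.mul_le_mul_left _ h3))
          _ ≤ (C * 200000 * 584 ^ 8 + 1) * 1 * t ^ 6 := by
            have : 584 ^ 8 * (C * (127008 * t ^ 6)) = (C * 127008 * 584 ^ 8) * t ^ 6 := by ring
            rw [this, mul_one]
            apply Nat.mul_le_mul_right
            have : C * 127008 * 584 ^ 8 ≤ C * 200000 * 584 ^ 8 := by
              apply Nat.mul_le_mul_right
              apply Nat.mul_le_mul_left
              norm_num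
            exact this.trans (Nat.le_succ _)
          _ ≤ t * t * t ^ 6 := by
            apply Nat.mul_le_mul_right
            exact Nat.mul_le_mul ht ht1
          _ = t ^ 8 := by ring
      have h5 : 584 * M ≤ t := (Nat.pow_le_pow_iff_left (by norm_num)).1 h4
      omega
  have hQcard : Q.card ≤ 73 * t ^ 7 := by
    simp only [hQ, card_product, card_range, Int.card_Icc]
    have : (36 * (t : ℤ) ^ 2 + 1 - -(36 * (t : ℤ) ^ 2)).toNat ≤ 73 * t ^ 2 := by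
      rw [Int.toNat_le]
      push_cast
      have : (1 : ℤ) ≤ (t : ℤ) ^ 2 := by
        have : (1 : ℤ) ≤ t := by exact_mod_cast ht1
        nlinarith
      linarith
    calc t ^ 2 * (t ^ 2 * (t * (36 * (t : ℤ) ^ 2 + 1 - -(36 * (t : ℤ) ^ 2)).toNat))
        ≤ t ^ 2 * (t ^ 2 * (t * (73 * t ^ 2))) := by gcongr
      _ = 73 * t ^ 7 := by ring
  have hfin : ((box t).filter (Extra t)).card ≤ ∑ q ∈ Q, (S q).card :=
    (card_le_card hcover).trans (card_biUnion_le.trans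
      (Finset.sum_le_sum fun q _ => card_image_le))
  have h6 : 584 * ∑ q ∈ Q, (S q).card ≤ 73 * t ^ 7 * (2 * t) := by
    rw [Finset.mul_sum]
    calc ∑ q ∈ Q, 584 * (S q).card ≤ ∑ q ∈ Q, 2 * t := Finset.sum_le_sum hScard
      _ = Q.card * (2 * t) := by rw [Finset.sum_const, smul_eq_mul]
      _ ≤ 73 * t ^ 7 * (2 * t) := Nat.mul_le_mul_right _ hQcard
  have h7 : 73 * t ^ 7 * (2 * t) = 146 * t ^ 8 := by ring
  omega

/-- The number of parameters with a curve which is not reduced. -/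
theorem card_nonRed (t : ℕ) (ht : 320 ≤ t) :
    (((box t).filter (NonRed t)).card : ℝ) ≤ (t : ℝ) ^ 8 / 10 := by
  set Q : Finset (ℕ × ℕ × ℕ) := range (t ^ 2) ×ˢ range (t ^ 2) ×ˢ range t with hQ
  set S : ℕ × ℕ × ℕ → Finset ℕ := fun q => (range (t ^ 3)).filter (fun n : ℕ =>
    ∃ r : ℕ, r.Prime ∧ 5 ≤ r ∧ r ≤ 4 * t ∧ (r : ℤ) ^ 6 ∣ (6 * (n : ℤ) + 3) ^ 2 -
      (6 * q.1 + 3) * (6 * q.2.1 + 1) * cc q.1 q.2.1 q.2.2) with hS
  have hcover : (box t).filter (NonRed t) ⊆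
      Q.biUnion (fun q => (S q).image (fun n => (q.1, q.2.1, q.2.2, n))) := by
    intro p hp
    obtain ⟨hp1, r, hr, hr5, hrt, hd⟩ := mem_filter.1 hp
    obtain ⟨h1, h2, h3, h4⟩ := mem_box hp1
    rw [mem_biUnion]
    refine ⟨(p.1, p.2.1, p.2.2.1), ?_, ?_⟩
    · simp only [hQ, mem_product, mem_range]
      exact ⟨h1, h2, h3⟩
    · rw [mem_image]
      refine ⟨p.2.2.2, ?_, rfl⟩
      simp only [hS, mem_filter, mem_range]
      refine ⟨h4, r, hr, hr5, hrt, ?_⟩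
      refine hd.trans (dvd_of_eq ?_)
      simp only [F, cB, cc]
  have h1 : ((box t).filter (NonRed t)).card ≤ ∑ q ∈ Q, (S q).card :=
    (card_le_card hcover).trans (card_biUnion_le.trans
      (Finset.sum_le_sum fun q _ => card_image_le))
  have ht' : (320 : ℝ) ≤ t := by exact_mod_cast ht
  calc (((box t).filter (NonRed t)).card : ℝ) ≤ ((∑ q ∈ Q, (S q).card : ℕ) : ℝ) := by
        exact_mod_cast h1
    _ = ∑ q ∈ Q, ((S q).card : ℝ) := by push_cast; rfl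
    _ ≤ ∑ q ∈ Q, (((t ^ 3 : ℕ) : ℝ) / 20 + 2 * ((4 * t : ℕ) : ℝ)) :=
        Finset.sum_le_sum fun q _ => card_nonreduced (t ^ 3) (4 * t) _
    _ = Q.card * (((t ^ 3 : ℕ) : ℝ) / 20 + 2 * ((4 * t : ℕ) : ℝ)) := by
        rw [Finset.sum_const, nsmul_eq_mul]
    _ = (t : ℝ) ^ 5 * ((t : ℝ) ^ 3 / 20 + 8 * t) := by
        simp only [hQ, card_product, card_range]
        push_cast; ring
    _ ≤ (t : ℝ) ^ 8 / 10 := by
        have h2 : 8 * (t : ℝ) ≤ (t : ℝ) ^ 3 / 20 := by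
          have : (160 : ℝ) ≤ (t : ℝ) ^ 2 := by nlinarith
          nlinarith
        have h3 : (0 : ℝ) ≤ (t : ℝ) ^ 5 := by positivity
        nlinarith

end Pool.Agent.H70.Two
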